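import Pool.Agent.Y190.CI.Crv

/-!
Algebraic hyperbolicity of the closed subsets of the complete intersections.
-/

set_option autoImplicit false

open FF Pool.Agent.W603.LV Pool.Agent.W602.GT

namespace Pool.Agent.Y190.CI

open Pool.Agent.Y190.BV Pool.Agent.Y190.SC Pool.Agent.Y216 Pool.Agent.W603.PV Pool.Agent.W603.CX
open Pool.Agent.Y190.PH Pool.Agent.TH182.TC

theorem contains_of_line {k : Type} [Field k] {N : ℕ} {ι : Type}
    {F : ι → MvPolynomial (Fin (N + 1)) k} {b c : Fin (N + 1) → k} (h : Line F b c) :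
    ContainsLine F := by
  refine ⟨b, c, ?_, fun t e => ?_⟩
  · by_contra hcon
    push Not at hcon
    have hli := LinearIndependent.pair_iff.1 h.1
    have ha : b = 0 := by
      by_contra ha
      obtain ⟨i, hi⟩ := Function.ne_iff.1 ha
      have h1 := hli (c i) (-(b i)) (by
        funext l
        simp only [Pi.add_apply, Pi.smul_apply, smul_eq_mul, Pi.zero_apply]
        linear_combination hcon i l)
      exact hi (neg_eq_zero.1 h1.2)
    have h1 := hli 1 0 (by rw [ha]; simp)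
    exact one_ne_zero h1.1
  · have h1 := h.2 1 t e
    unfold val at h1
    rw [← MvPolynomial.aeval_eq_eval]
    have h2 : (fun i => b i + t * c i) = (1 : k) • b + t • c := by
      funext i
      simp
    rw [h2]
    exact h1

variable {k : Type} [Field k] [IsAlgClosed k] [CharZero k] {c n : ℕ} {d : Fin c → ℕ} {ι : Type}
  {F : ι → MvPolynomial (Fin (c + n + 1)) k} {a : (j : Fin c) → Fin (d j) → k}

/-- **Algebraic notions of hyperbolicity.** -/
theorem alg_six (hnc : n ≤ c + 1) (hnum : Num n c d)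
    (ha : Function.Injective fun t : Σ j, Fin (d j) => a t.1 t.2) (hF : ∀ e, IsForm (F e))
    (hV : Cone F ⊆ CompInt n a) :
    [AlgHyperbolic n F, ∃ A : ℕ, AlgHyperbolic A F, BoundedOnCurves F, AllGeneralType F,
      ∀ P, ¬ GmCurve F P, ¬ ContainsLine F].TFAE := by
  have hl := alg_tfae hnc hnum ha hF hV
  have h0 : (∀ p q, ¬ Line F p q) → AlgHyperbolic n F := by
    intro h K _ _ _ f hf0 hf
    obtain ⟨j, hj⟩ := hf0
    rcases curve_or_line hnc hnum ha hF hV (Function.ne_iff.2 ⟨j, hj⟩) hf with h1 | ⟨p, q, h1, -⟩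
    · exact h1
    · exact absurd h1 (h p q)
  have h6 : ¬ ContainsLine F → ∀ p q, ¬ Line F p q := fun h p q hpq => h (contains_of_line hpq)
  tfae_have 1 → 2 := fun h => ⟨n, h⟩
  tfae_have 2 → 3 := by
    rintro ⟨A, hA⟩ K _ _ _
    exact ⟨_, fun f hf0 hf => hA K f hf0 hf⟩
  tfae_have 3 → 6 := by
    intro h hl
    obtain ⟨B, hB⟩ := h (RatFunc k)
    obtain ⟨f, hf0, hf, hlt⟩ := unbounded_line hl B
    exact absurd (hB f hf0 hf) (not_le.2 hlt)
  tfae_have 6 → 4 := fun h => (hl.out 0 2).2 (h6 h)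
  tfae_have 4 → 5 := fun h => (hl.out 0 1).1 h
  tfae_have 5 → 1 := fun h => h0 ((hl.out 1 2).1 h)
  tfae_finish

/-- the degrees of the curves which are not contained in the closure of the lines -/
theorem curve_off (hnc : n ≤ c + 1) (hnum : Num n c d)
    (ha : Function.Injective fun t : Σ j, Fin (d j) => a t.1 t.2) (hF : ∀ e, IsForm (F e))
    (hV : Cone F ⊆ CompInt n a) {G : MvPolynomial (Fin (c + n + 1)) k} (hG : IsForm G)
    (hL : ∀ p q, Line F p q → ∀ s s' : k, val (s • p + s' • q) G = 0) {K : Type} [Field K]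
    [Algebra k K] [IsFF k K] {y : Fin (c + n + 1) → K} (hy0 : y ≠ 0) (hy : ∀ e, val y (F e) = 0)
    (hyG : val y G ≠ 0) : pht k y ≤ n * max (canDeg k K) 0 := by
  rcases curve_or_line hnc hnum ha hF hV hy0 hy with h1 | ⟨p, q, h1, h2⟩
  · exact h1
  · exact absurd (h2 G hG (hL p q h1)) hyG

section cplx

variable {F : ι → MvPolynomial (Fin (c + n + 1)) ℂ} {a : (j : Fin c) → Fin (d j) → ℂ}

/-- **Notions of hyperbolicity**, complex case. -/
theorem hyp_seven (hnc : n ≤ c + 1) (hnum : Num n c d)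
    (ha : Function.Injective fun t : Σ j, Fin (d j) => a t.1 t.2) (hF : ∀ e, IsForm (F e))
    (hV : Cone F ⊆ CompInt n a) :
    [Brody F, Picard F, AllGeneralType F, AlgHyperbolic n F, BoundedOnCurves F,
      ∀ P, ¬ GmCurve F P, ¬ ContainsLine F].TFAE := by
  have h1 := hyp_ci hnc hnum ha hF hV
  have h2 := alg_six hnc hnum ha hF hV
  tfae_have 1 ↔ 2 := h1.out 0 1
  tfae_have 1 ↔ 3 := h1.out 0 2
  tfae_have 3 ↔ 4 := h2.out 3 0
  tfae_have 3 ↔ 5 := h2.out 3 2
  tfae_have 3 ↔ 6 := h2.out 3 4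
  tfae_have 3 ↔ 7 := h2.out 3 5
  tfae_finish

theorem torus_brody (hnc : n ≤ c + 1) (hnum : Num n c d)
    (ha : Function.Injective fun t : Σ j, Fin (d j) => a t.1 t.2) (hF : ∀ e, IsForm (F e))
    (hV : Cone F ⊆ CompInt n a) (h : EllipticRigid F) : Brody F :=
  ((hyp_ci hnc hnum ha hF hV).out 0 4).2 (elliptic_noLines hF h)

/-- `n ≤ c`: all closed subsets are hyperbolic -/
theorem hyp_low (hnc : n ≤ c) (hnum : Num n c d)
    (ha : Function.Injective fun t : Σ j, Fin (d j) => a t.1 t.2) (hF : ∀ e, IsForm (F e))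
    (hV : Cone F ⊆ CompInt n a) :
    Brody F ∧ Picard F ∧ AllGeneralType F ∧ AlgHyperbolic n F := by
  have h1 := hyp_seven (by omega) hnum ha hF hV
  have h2 : ∀ p q, ¬ Line F p q := spLine_empty_iff.1 (spLine_empty_ci hnc hnum ha hF hV)
  have h3 : Brody F := ((hyp_ci (by omega) hnum ha hF hV).out 0 4).2 h2
  exact ⟨h3, (h1.out 0 1).1 h3, (h1.out 0 2).1 h3, (h1.out 0 3).1 h3⟩

end cplx

end Pool.Agent.Y190.CI
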