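import Pool.Agent.Y190.CI.Red

/-!
Function fields with polynomials which satisfy several multiplicative equations are of general type.
-/

set_option autoImplicit false

open Polynomial

namespace Pool.Agent.Y190.CI

open FF Pool.Agent.W602.GT Pool.Agent.Y190.BV Pool.Agent.Y190.SC Pool.Agent.Y216

section flat

variable {c : ℕ} (d : Fin c → ℕ)

/-- the index of a node -/
def ix (t : Fin (∑ j, d j)) : Σ j, Fin (d j) := finSigmaFinEquiv.symm t

/-- all nodes -/
def nodes {k : Type} (a : (j : Fin c) → Fin (d j) → k) (t : Fin (∑ j, d j)) : k :=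
  a (ix d t).1 (ix d t).2

/-- the common multiple -/
def MM : ℕ := ∏ j, d j

/-- the weights -/
def wt (t : Fin (∑ j, d j)) : ℕ := MM d / d (ix d t).1

theorem nodes_inj {k : Type} {a : (j : Fin c) → Fin (d j) → k}
    (ha : Function.Injective fun t : Σ j, Fin (d j) => a t.1 t.2) :
    Function.Injective (nodes d a) := fun _ _ h =>
  finSigmaFinEquiv.symm.injective (ha h)

theorem sum_flat {R : Type} [AddCommMonoid R] (f : (Σ j, Fin (d j)) → R) :
    ∑ t, f (ix d t) = ∑ j, ∑ i, f ⟨j, i⟩ := by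
  unfold ix
  rw [Equiv.sum_comp finSigmaFinEquiv.symm f, Fintype.sum_sigma]

variable {d}

theorem MM_pos (hd : ∀ j, 0 < d j) : 0 < MM d := Finset.prod_pos fun j _ => hd j

theorem dvd_MM (j : Fin c) : d j ∣ MM d := Finset.dvd_prod_of_mem _ (Finset.mem_univ j)

theorem sum_wt : ∑ t, wt d t = c * MM d := by
  have h1 := sum_flat d fun s => MM d / d s.1
  change ∑ t, wt d t = _ at h1
  rw [h1]
  have h2 : ∀ j : Fin c, ∑ _i : Fin (d j), MM d / d j = MM d := by
    intro j
    rw [Finset.sum_const, Finset.card_univ, Fintype.card_fin, smul_eq_mul,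
      Nat.mul_div_cancel' (dvd_MM j)]
  rw [Finset.sum_congr rfl fun j _ => h2 j, Finset.sum_const, Finset.card_univ, Fintype.card_fin,
    smul_eq_mul]

theorem bound_flat {n : ℕ} (hd : ∀ j, 0 < d j) (h : n * (c + 2) < ∑ j, d j) :
    n * ∑ t, wt d t + 2 * n * MM d < (∑ j, d j) * MM d := by
  rw [sum_wt]
  have h1 := Nat.mul_lt_mul_of_pos_right h (MM_pos hd)
  have h2 : n * (c * MM d) + 2 * n * MM d = n * (c + 2) * MM d := by ring
  rw [h2]
  exact h1

end flat

variable {k L : Type} [Field k] [Field L] [Algebra k L] {c n : ℕ} {d : Fin c → ℕ}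

/-- the sum of the contact orders in a group is divisible by the degree -/
theorem dvd_group {a : (j : Fin c) → Fin (d j) → k} {κ : Fin c → k} {w : Fin c → L}
    {h : Fin (n + 1) → L} (ho : OnCI a κ w h) (j : Fin c) (hw : w j ≠ 0) (P : Place k L) :
    (d j : ℤ) ∣ ∑ i, ct P (pol h) (a j i) := by
  have h1 := ho j
  have h2 : algebraMap k L (κ j) * ∏ i, (pol h).eval (algebraMap k L (a j i)) ≠ 0 := by
    rw [← h1]
    exact pow_ne_zero _ hw
  have hκ : κ j ≠ 0 := by
    intro h0
    rw [h0, map_zero, zero_mul] at h2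
    exact h2 rfl
  have hp := right_ne_zero_of_mul h2
  have h3 := congrArg P.ord h1
  rw [P.ord_pow, P.ord_mul (left_ne_zero_of_mul h2) hp, P.ord_const hκ, zero_add,
    ord_prod' P _ _ fun i hi => (Finset.prod_ne_zero_iff.1 hp) i hi] at h3
  refine ⟨P.ord (w j) - cnt P (pol h), ?_⟩
  unfold ct
  rw [Finset.sum_sub_distrib, ← h3, Finset.sum_const, Finset.card_univ, Fintype.card_fin,
    nsmul_eq_mul]
  ring

theorem eval_ne {a : (j : Fin c) → Fin (d j) → k} {κ : Fin c → k} {w : Fin c → L}
    {h : Fin (n + 1) → L} (ho : OnCI a κ w h) {j : Fin c} (hw : w j ≠ 0)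
    (i : Fin (d j)) : (pol h).eval (algebraMap k L (a j i)) ≠ 0 := by
  intro h0
  have h1 := ho j
  rw [Finset.prod_eq_zero (Finset.mem_univ i) h0, mul_zero] at h1
  exact hw (eq_zero_of_pow_eq_zero h1)

theorem sumC_flat {a : (j : Fin c) → Fin (d j) → k} {κ : Fin c → k} {w : Fin c → L}
    {h : Fin (n + 1) → L} (ho : OnCI a κ w h) (hw : ∀ j, w j ≠ 0)
    (P : Place k L) : SumC (MM d) (wt d) (nodes d a) (pol h) P := by
  by_cases h0 : ∀ t, ct P (pol h) (nodes d a t) = 0
  · exact Or.inl h0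
  right
  push Not at h0
  obtain ⟨t, ht⟩ := h0
  have hnn : ∀ j i, 0 ≤ ct P (pol h) (a j i) := fun j i =>
    ct_nonneg P (eval_ne ho (hw j) i)
  set j0 := (ix d t).1 with hj0
  have h1 := sum_flat d fun s => ((MM d / d s.1 : ℕ) : ℤ) * ct P (pol h) (a s.1 s.2)
  change ∑ t, ((wt d t : ℕ) : ℤ) * ct P (pol h) (nodes d a t) = _ at h1
  rw [h1]
  have h2 : ∀ j ∈ (Finset.univ : Finset (Fin c)),
      0 ≤ ∑ i, ((MM d / d j : ℕ) : ℤ) * ct P (pol h) (a j i) := fun j _ =>
    Finset.sum_nonneg fun i _ => mul_nonneg (Int.natCast_nonneg _) (hnn j i)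
  refine le_trans ?_ (Finset.single_le_sum h2 (Finset.mem_univ j0))
  rw [← Finset.mul_sum]
  have h3 : 0 < ∑ i, ct P (pol h) (a j0 i) := by
    have h4 : 0 < ct P (pol h) (a j0 (ix d t).2) :=
      lt_of_le_of_ne (hnn _ _) (Ne.symm ht)
    exact lt_of_lt_of_le h4 (Finset.single_le_sum (f := fun i => ct P (pol h) (a j0 i))
      (fun i _ => hnn j0 i) (Finset.mem_univ _))
  have h4 : (d j0 : ℤ) ≤ ∑ i, ct P (pol h) (a j0 i) :=
    Int.le_of_dvd h3 (dvd_group ho j0 (hw j0) P)
  have h5 : (MM d : ℤ) = ((MM d / d j0 : ℕ) : ℤ) * (d j0 : ℤ) := by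
    rw [← Nat.cast_mul, Nat.div_mul_cancel (dvd_MM j0)]
  calc (MM d : ℤ) = ((MM d / d j0 : ℕ) : ℤ) * (d j0 : ℤ) := h5
    _ ≤ _ := mul_le_mul_of_nonneg_left h4 (Int.natCast_nonneg _)

theorem alg_coords {E M : IntermediateField k L} (h : E ≤ M)
    (hE : Algebra.IsAlgebraic E L) : Algebra.IsAlgebraic M L := by
  let _ : Algebra E M := (IntermediateField.inclusion h).toRingHom.toAlgebra
  have : IsScalarTower E M L := IsScalarTower.of_algebraMap_eq fun x => rfl
  exact Algebra.IsAlgebraic.extendScalars (R := E) (IntermediateField.inclusion h).toRingHom.injective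

/-- the coordinates of the polynomial are given by those of the quotient -/
theorem coords_dv {α : k} {h : Fin (n + 2) → L} (h0 : (pol h).eval (algebraMap k L α) = 0)
    (hh : h ≠ 0) : coords k h ≤ coords k (dv (algebraMap k L α) h) := by
  set g := dv (algebraMap k L α) h with hg
  obtain ⟨p, hp⟩ := Function.ne_iff.1 (dv_ne h0 hh)
  have hp' : g p ≠ 0 := hp
  have hgp : ∀ i, (pol g).coeff i / g p ∈ coords k g := by
    intro i
    by_cases hi : i < n + 1
    · rw [coeff_pol_lt _ hi]
      exact IntermediateField.subset_adjoin k _ ⟨_, p, hp', rfl⟩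
    · rw [coeff_pol_ge _ (by omega), zero_div]
      exact zero_mem _
  have h1 : ∀ l : Fin (n + 2), h l / g p ∈ coords k g := by
    intro l
    rw [coeff_mul_dv h0 l, sub_mul, coeff_sub, coeff_C_mul, sub_div, mul_div_assoc]
    refine sub_mem ?_ (mul_mem (IntermediateField.algebraMap_mem _ _) (hgp _))
    rcases Nat.eq_zero_or_pos (l : ℕ) with hl | hl
    · rw [hl, coeff_X_mul_zero, zero_div]
      exact zero_mem _
    · obtain ⟨m, hm⟩ := Nat.exists_eq_succ_of_ne_zero hl.ne'
      rw [hm, coeff_X_mul]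
      exact hgp m
  unfold coords
  rw [IntermediateField.adjoin_le_iff]
  rintro _ ⟨i, j, hj, rfl⟩
  have h2 : h i / h j = (h i / g p) / (h j / g p) := by field_simp
  rw [h2]
  exact div_mem (h1 i) (h1 j)

/-- **General type.** -/
theorem gt_ci [IsAlgClosed k] [CharZero k] : ∀ (c n : ℕ) (d : Fin c → ℕ)
    (a : (j : Fin c) → Fin (d j) → k) (κ : Fin c → k), Num n c d →
    (Function.Injective fun t : Σ j, Fin (d j) => a t.1 t.2) → (∀ j, κ j ≠ 0) →
    ∀ (K : Type) [Field K] [Algebra k K] (w : Fin c → K) (h : Fin (n + 1) → K) (t : ℕ),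
    OnCI a κ w h → h ≠ 0 → (∃ j, w j ≠ 0) → Algebra.trdeg k K = t → 1 ≤ t →
    Algebra.IsAlgebraic (coords k h) K → ∀ Bd : Place k K → Prop, LogGeneralType k K t Bd := by
  intro c
  induction c with
  | zero =>
    rintro n d a κ - - - K _ _ w h t - - ⟨j, -⟩
    exact j.elim0
  | succ c ih =>
    intro n d a κ hnum ha hκ K _ _ w h t ho hh hw htr ht halg Bd
    by_cases hall : ∀ j, w j ≠ 0
    · have hb := bound_flat (n := n) hnum.pos (hnum.base (Nat.succ_pos c))
      refine core_sum ht htr (nodes (d := d) (a := a)) (nodes_inj (d := d) ha) hb (pol h)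
        (Pool.Agent.Y216.LG.pol_ne hh) (natDegree_pol_le h) ?_ ?_ Bd fun P _ _ =>
          sumC_flat ho hall P
      · rw [← IntermediateField.isAlgebraic_adjoin_iff_top]
        refine alg_coords ?_ halg
        unfold coords
        rw [IntermediateField.adjoin_le_iff]
        rintro _ ⟨i, j, hj, rfl⟩
        exact IntermediateField.subset_adjoin k _ ⟨(i : ℕ), (j : ℕ), by
          rw [coeff_pol, coeff_pol]⟩
      · intro s
        exact eval_ne ho (hall _) _
    · push Not at hall
      obtain ⟨j0, hj0⟩ := hall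
      have h1 := ho j0
      rw [hj0, zero_pow (hnum.pos j0).ne'] at h1
      have h2 := (mul_eq_zero.1 h1.symm).resolve_left ((_root_.map_ne_zero _).2 (hκ j0))
      obtain ⟨i0, -, h3⟩ := Finset.prod_eq_zero_iff.1 h2
      cases n with
      | zero =>
        exfalso
        apply hh
        have h4 : (pol h).eval (algebraMap k K (a j0 i0)) = h 0 := by
          unfold pol
          simp
        funext l
        have h5 : l = 0 := Fin.ext (by omega)
        rw [h5, ← h4, h3]
        rfl
      | succ n =>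
        obtain ⟨j1, hj1⟩ := hw
        have hne : j1 ≠ j0 := by
          rintro rfl
          exact hj1 hj0
        obtain ⟨i1, hi1⟩ := Fin.exists_succAbove_eq hne
        refine ih n _ _ _ (hnum.step j0) ?_ ?_ K _ _ t (ho.step j0 i0 h3) (dv_ne h3 hh) ⟨i1, ?_⟩
          htr ht (alg_coords (coords_dv h3 hh) halg) Bd
        · rintro ⟨i, s⟩ ⟨i', s'⟩ hs
          have h4 := @ha ⟨j0.succAbove i, s⟩ ⟨j0.succAbove i', s'⟩ hs
          rw [Sigma.mk.injEq] at h4
          obtain ⟨h5, h6⟩ := h4
          have h7 := j0.succAbove_right_injective h5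
          subst h7
          rw [heq_eq_eq] at h6
          rw [h6]
        · intro i
          refine mul_ne_zero (hκ _) (Finset.prod_ne_zero_iff.2 fun s _ => sub_ne_zero.2 ?_)
          intro h4
          have h5 := @ha ⟨j0.succAbove i, s⟩ ⟨j0, i0⟩ h4
          rw [Sigma.mk.injEq] at h5
          exact j0.succAbove_ne i h5.1
        · rw [hi1]
          exact hj1

end Pool.Agent.Y190.CI
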