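import Pool.Agent.Y190.CI.Alg
import Pool.Agent.Y190.SC.Res

/-!
The complete intersections as closed subsets of a product of projective spaces.
-/

set_option autoImplicit false

open MvPolynomial Metric Filter Topology

namespace Pool.Agent.Y190.CI

open Pool.Agent.W602.Cov Pool.Agent.W602.Cov.Cover Pool.Agent.W602.Cov.R Pool.Agent.W603.BP
open Pool.Agent.W601.PH Pool.Agent.W602.GT Pool.Agent.Y216 Pool.Agent.Y216.LG
open Pool.Agent.TH152.HY hiding aeval_inr main
open Pool.Agent.Y191 (SemiAbelianOff semi_of_brody lf)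
open Pool.Agent.Y190.SC Pool.Agent.Y190.BV

variable {n c : ℕ} {d : Fin c → ℕ}

/-- the equation `w j ^ d j = κ j * H (a j 1) * ... * H (a j (d j))` -/
noncomputable def ciEq (n : ℕ) {c : ℕ} {d : Fin c → ℕ} (a : (j : Fin c) → Fin (d j) → ℂ)
    (κ : Fin c → ℂ) (j : Fin c) : BiPoly (c + n) n :=
  X (Sum.inl (Fin.castAdd (n + 1) j)) ^ d j -
    C (κ j) * ∏ i, ∑ l : Fin (n + 1), C (a j i ^ (l : ℕ)) * X (Sum.inl (Fin.natAdd c l))

/-- The complete intersection of the hypersurfaces `w j ^ d j = κ j * H (a j 1) * ...` in `P^(c+n)`,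
with the coordinates `(w, H)`, `H` a polynomial of degree at most `n`; as a subset of
`P^(c+n) × P^n` it is given as the graph of the morphism which maps `(w, H)` to `H`. -/
noncomputable def cis (n : ℕ) {c : ℕ} {d : Fin c → ℕ} (a : (j : Fin c) → Fin (d j) → ℂ)
    (κ : Fin c → ℂ) : BiSet (c + n) n where
  eqs := {G | (∃ i j : Fin (n + 1), G = X (Sum.inl (Fin.natAdd c i)) * X (Sum.inr j) -
    X (Sum.inl (Fin.natAdd c j)) * X (Sum.inr i)) ∨ ∃ j, G = ciEq n a κ j}
  hom := by
    have hx : ∀ i : Fin (c + n + 1), BiHom (X (Sum.inl i) : BiPoly (c + n) n) 1 0 := fun i =>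
      isWeightedHomogeneous_X ℂ _ (Sum.inl i)
    have hy : ∀ i : Fin (n + 1), BiHom (X (Sum.inr i) : BiPoly (c + n) n) 0 1 := fun i =>
      isWeightedHomogeneous_X ℂ _ (Sum.inr i)
    have hC : ∀ r : ℂ, BiHom (C r : BiPoly (c + n) n) 0 0 := fun r =>
      isWeightedHomogeneous_C (Sum.elim (fun _ : Fin (c + n + 1) => ((1 : ℕ), (0 : ℕ)))
        fun _ : Fin (n + 1) => ((0 : ℕ), (1 : ℕ))) r
    rintro G (⟨i, j, rfl⟩ | ⟨j, rfl⟩)
    · exact ⟨1, 1, (IsWeightedHomogeneous.mul (hx _) (hy _)).sub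
        (IsWeightedHomogeneous.mul (hx _) (hy _))⟩
    · refine ⟨d j, 0, ?_⟩
      unfold ciEq
      refine IsWeightedHomogeneous.sub ?_ ?_
      · have := IsWeightedHomogeneous.pow (hx (Fin.castAdd (n + 1) j)) (d j)
        simpa using this
      · have h1 : ∀ i ∈ (Finset.univ : Finset (Fin (d j))), IsWeightedHomogeneous
            (Sum.elim (fun _ => ((1 : ℕ), (0 : ℕ))) fun _ => ((0 : ℕ), (1 : ℕ)))
            (∑ l : Fin (n + 1), C (a j i ^ (l : ℕ)) * X (Sum.inl (Fin.natAdd c l)) :
              BiPoly (c + n) n) ((1 : ℕ), (0 : ℕ)) := by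
          intro i _
          refine IsWeightedHomogeneous.sum _ _ _ fun l _ => ?_
          have := (hC (a j i ^ (l : ℕ))).mul (hx (Fin.natAdd c l))
          simpa using this
        have h2 := IsWeightedHomogeneous.prod _ _ _ h1
        have h3 := (hC (κ j)).mul h2
        simpa using h3

theorem ci_mem (hd : ∀ j, 0 < d j) {a : (j : Fin c) → Fin (d j) → ℂ} {κ : Fin c → ℂ} {L : Type}
    [Field L] [Algebra ℂ L] {x : Fin (c + n + 1) → L} {y : Fin (n + 1) → L}
    (h : (cis n a κ).Mem x y) : ∃ r : L, r ≠ 0 ∧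
      (fun l : Fin (n + 1) => x (Fin.natAdd c l)) = r • y ∧
      OnCI a κ (fun j => x (Fin.castAdd (n + 1) j)) (fun l : Fin (n + 1) => x (Fin.natAdd c l)) := by
  obtain ⟨hx, hy, he⟩ := h
  obtain ⟨k, hk⟩ := Function.ne_iff.mp hy
  have hk' : y k ≠ 0 := hk
  have h1 : ∀ i : Fin (n + 1), x (Fin.natAdd c i) = x (Fin.natAdd c k) / y k * y i := by
    intro i
    have h2 := he _ (Or.inl ⟨i, k, rfl⟩)
    rw [map_sub, map_mul, map_mul, aeval_X, aeval_X, aeval_X, aeval_X, Sum.elim_inl, Sum.elim_inl,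
      Sum.elim_inr, Sum.elim_inr, sub_eq_zero] at h2
    field_simp
    exact h2
  have h3 : OnCI a κ (fun j => x (Fin.castAdd (n + 1) j))
      (fun l : Fin (n + 1) => x (Fin.natAdd c l)) := by
    intro j
    have h2 := he _ (Or.inr ⟨j, rfl⟩)
    unfold ciEq at h2
    rw [map_sub, map_pow, aeval_X, Sum.elim_inl, map_mul, aeval_C, map_prod, sub_eq_zero] at h2
    rw [h2]
    congr 1
    refine Finset.prod_congr rfl fun i _ => ?_
    rw [eval_pol_eq]
    unfold lf
    rw [map_sum]
    refine Finset.sum_congr rfl fun l _ => ?_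
    rw [map_mul, aeval_C, aeval_X, Sum.elim_inl]
  refine ⟨x (Fin.natAdd c k) / y k, ?_, funext fun l => h1 l, h3⟩
  intro hr0
  apply hx
  have h4 : (fun l : Fin (n + 1) => x (Fin.natAdd c l)) = 0 := by
    funext l
    change x (Fin.natAdd c l) = 0
    rw [h1 l, hr0, zero_mul]
  have h5 : pol (0 : Fin (n + 1) → L) = 0 := by
    unfold pol
    simp
  funext i
  refine Fin.addCases (m := c) (n := n + 1) (fun j => ?_) (fun l => congrFun h4 l) i
  have h6 := h3 j
  rw [h4, h5] at h6
  simp only [Polynomial.eval_zero] at h6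
  rw [Finset.prod_const, Finset.card_univ, Fintype.card_fin, zero_pow (hd j).ne', mul_zero] at h6
  exact eq_zero_of_pow_eq_zero h6

theorem pol_smul {L : Type} [Field L] (r : L) (y : Fin (n + 1) → L) :
    pol (r • y) = Polynomial.C r * pol y := by
  unfold pol
  rw [Finset.mul_sum]
  refine Finset.sum_congr rfl fun l _ => ?_
  rw [Pi.smul_apply, smul_eq_mul, Polynomial.C_mul, mul_assoc]

theorem ci_sum (hd : ∀ j, 0 < d j) (a : (j : Fin c) → Fin (d j) → ℂ) {κ : Fin c → ℂ}
    (hκ : ∀ j, κ j ≠ 0) (D : BiSet (c + n) n) :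
    RamifiedSum (cis n a κ) D (nodes d a) (MM d) (wt d) := by
  intro L _ _ x y hxy h0 P _ b s hN hs hs0
  obtain ⟨r, hr, hry, ho⟩ := ci_mem hd hxy
  have hev : ∀ t, (pol y).eval (algebraMap ℂ L (nodes d a t)) ≠ 0 := by
    intro t
    rw [eval_pol_eq]
    exact h0 t
  have hpol : pol (fun l : Fin (n + 1) => x (Fin.natAdd c l)) = Polynomial.C r * pol y := by
    rw [hry, pol_smul]
  have hw : ∀ j, x (Fin.castAdd (n + 1) j) ≠ 0 := by
    intro j hj
    have h1 := ho j
    simp only [hj] at h1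
    rw [zero_pow (hd j).ne'] at h1
    have h2 := (mul_eq_zero.1 h1.symm).resolve_left ((_root_.map_ne_zero _).2 (hκ j))
    obtain ⟨i, -, h3⟩ := Finset.prod_eq_zero_iff.1 h2
    rw [hpol, Polynomial.eval_mul, Polynomial.eval_C] at h3
    have h4 := (mul_eq_zero.1 h3).resolve_left hr
    have h5 := hev (finSigmaFinEquiv ⟨j, i⟩)
    apply h5
    unfold nodes ix
    rw [Equiv.symm_apply_apply]
    exact h4
  have h1 := sumC_flat ho hw P
  rw [hpol] at h1
  have hct : ∀ t, ct P (Polynomial.C r * pol y) (nodes d a t) = s t := by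
    intro t
    rw [ct_mul P (by rw [Polynomial.eval_C]; exact hr) (hev t), ct_C P hr, zero_add]
    unfold ct
    rw [cnt_pol hN, eval_pol_eq, hs t]
    ring
  rcases h1 with h1 | h1
  · exfalso
    apply hs0
    funext t
    have h2 := h1 t
    rw [hct] at h2
    exact_mod_cast h2
  · simp only [hct] at h1
    exact_mod_cast h1

theorem ci_finite (hd : ∀ j, 0 < d j) (a : (j : Fin c) → Fin (d j) → ℂ) (κ : Fin c → ℂ) :
    FiniteOver (cis n a κ) := by
  intro L _ _ x y hxy
  obtain ⟨r, hr, hry, ho⟩ := ci_mem hd hxy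
  set F := IntermediateField.adjoin ℂ {f : L | ∃ i j, y j ≠ 0 ∧ f = y i / y j} with hF
  obtain ⟨k, hk⟩ := Function.ne_iff.mp hxy.2.1
  have hk' : y k ≠ 0 := hk
  have hyF : ∀ i, y i / y k ∈ F := fun i => IntermediateField.subset_adjoin ℂ _ ⟨i, k, hk', rfl⟩
  -- all ratios with the coordinate `k`
  have h1 : ∀ i : Fin (c + n + 1), IsAlgebraic F (x i / (r * y k)) := by
    intro i
    refine Fin.addCases (m := c) (n := n + 1) (fun j => ?_) (fun l => ?_) i
    · have h2 : IsAlgebraic F ((x (Fin.castAdd (n + 1) j) / (r * y k)) ^ d j) := by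
        have h3 : (x (Fin.castAdd (n + 1) j) / (r * y k)) ^ d j = algebraMap ℂ L (κ j) *
            ∏ i, (lf (fun l : Fin (n + 1) => a j i ^ (l : ℕ)) y / y k) := by
          have h4 : x (Fin.castAdd (n + 1) j) ^ d j = algebraMap ℂ L (κ j) *
              ∏ i, (r * lf (fun l : Fin (n + 1) => a j i ^ (l : ℕ)) y) := by
            have h5 := ho j
            rw [hry, pol_smul] at h5
            rw [h5]
            congr 1
            refine Finset.prod_congr rfl fun i _ => ?_
            rw [Polynomial.eval_mul, Polynomial.eval_C, eval_pol_eq]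
          rw [div_pow, h4, Finset.prod_mul_distrib, Finset.prod_const, Finset.card_univ,
            Fintype.card_fin, Finset.prod_div_distrib, Finset.prod_const, Finset.card_univ,
            Fintype.card_fin, mul_pow]
          have h6 : r ^ d j ≠ 0 := pow_ne_zero _ hr
          field_simp
        have h4 : ∀ i, lf (fun l : Fin (n + 1) => a j i ^ (l : ℕ)) y / y k ∈ F := by
          intro i
          unfold lf
          rw [Finset.sum_div]
          refine F.sum_mem fun l _ => ?_
          rw [mul_div_assoc]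
          exact F.mul_mem (F.algebraMap_mem _) (hyF l)
        rw [h3]
        have h5 : algebraMap ℂ L (κ j) *
            (∏ i, (lf (fun l : Fin (n + 1) => a j i ^ (l : ℕ)) y / y k)) ∈ F :=
          F.mul_mem (F.algebraMap_mem _) (F.prod_mem fun i _ => h4 i)
        exact isAlgebraic_algebraMap (R := F) (A := L) ⟨_, h5⟩
      exact h2.of_pow (hd j)
    · have h2 : x (Fin.natAdd c l) = r * y l := congrFun hry l
      rw [h2, mul_div_mul_left _ _ hr]
      exact isAlgebraic_algebraMap (R := F) (A := L) ⟨_, hyF l⟩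
  intro i j _
  have h2 : x i / x j = x i / (r * y k) * (x j / (r * y k))⁻¹ := by
    have : r * y k ≠ 0 := mul_ne_zero hr hk'
    field_simp
  rw [h2]
  exact (h1 i).mul (h1 j).inv

end Pool.Agent.Y190.CI
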