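import Pool.Agent.Y190.CI.Fin

/-!
The results on complete intersections, in the form of the hand-ins.
-/

set_option autoImplicit false

open MvPolynomial Metric Filter Topology Set

namespace Pool.Agent.Y190.CI

open Pool.Agent.W602.Cov.R Pool.Agent.W603.BP
open Pool.Agent.W601.PH Pool.Agent.W602.GT Pool.Agent.Y216 Pool.Agent.Y216.LG
open Pool.Agent.Y190.SC Pool.Agent.Y190.BV Pool.Agent.Y190.AN Pool.Agent.Y190.PH
open Pool.Agent.H159R3.GGLLog Pool.Agent.H159R3.NV Pool.Agent.TH182.TC

/-- The data of a complete intersection of linear degree: distinct nodes `a j i`, degrees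
`d j ≥ D ≥ 1` such that `n * (c + 2) < c * D` and `3 * (n + 1) < D + 3 * c`; for instance `c = 1`
and `D > 3 * n`, or `c = n` and `D ≥ n + 3`. -/
structure Data {k : Type} (n c D : ℕ) (d : Fin c → ℕ) (a : (j : Fin c) → Fin (d j) → k) : Prop where
  /-- all degrees are at least `D` -/
  deg : ∀ j, D ≤ d j
  /-- first inequality -/
  one : n * (c + 2) < c * D
  /-- second inequality -/
  two : 3 * (n + 1) < D + 3 * c
  /-- the nodes are distinct -/
  inj : Function.Injective fun t : Σ j, Fin (d j) => a t.1 t.2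

theorem Data.num {k : Type} {n c D : ℕ} {d : Fin c → ℕ} {a : (j : Fin c) → Fin (d j) → k}
    (h : Data n c D d a) : Num n c d := num_of h.deg h.one h.two

/-- the set of the points of `{F = 0}` with `w = 0` -/
def WZero {k : Type} [Field k] {n c : ℕ} {ι : Type}
    (F : ι → MvPolynomial (Fin (c + n + 1)) k) : Set (Fin (c + n + 1) → k) :=
  {x | x ∈ Cone F ∧ ∀ j : Fin c, x (Fin.castAdd (n + 1) j) = 0}

theorem wZero_eq {k : Type} [Field k] {n c : ℕ} {ι : Type}
    {F : ι → MvPolynomial (Fin (c + n + 1)) k} : {x | x ∈ Cone F ∧ wp x = 0} = WZero F := by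
  ext x
  exact and_congr_right fun _ => ⟨fun h j => congrFun h j, fun h => funext h⟩

section irr

variable {k : Type} [Field k] {N : ℕ} {ι : Type} {F : ι → MvPolynomial (Fin (N + 1)) k}
  {K : Type} [Field K] [Algebra k K] {t : ℕ} {y : Fin (N + 1) → K}

/-- the variety is not contained in a form which does not vanish at the generic point -/
theorem exists_pt_ne [IsAlgClosed k] (hy : SubVar F K t y) {G : MvPolynomial (Fin (N + 1)) k}
    (hG : val y G ≠ 0) : ∃ x ∈ Cone F, val x G ≠ 0 := by
  obtain ⟨i, hi⟩ := Function.ne_iff.1 hy.ne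
  obtain ⟨x, hx, hx0⟩ := specialise y (G * MvPolynomial.X i) (by
    rw [map_mul, aeval_X]
    exact mul_ne_zero hG hi)
  rw [map_mul, aeval_X] at hx
  exact ⟨x, ⟨fun h0 => (right_ne_zero_of_mul hx) (congrFun h0 i), fun e => hx0 _ (hy.mem e)⟩,
    left_ne_zero_of_mul hx⟩

end irr

section alg

variable {k : Type} [Field k] [IsAlgClosed k] [CharZero k] {c n : ℕ} {d : Fin c → ℕ} {ι : Type}
  {F : ι → MvPolynomial (Fin (c + n + 1)) k} {a : (j : Fin c) → Fin (d j) → k}

/-- the special sets lie in `w = 0` -/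
theorem spAlg_w (hnum : Num n c d)
    (ha : Function.Injective fun t : Σ j, Fin (d j) => a t.1 t.2)
    (hV : Cone F ⊆ CompInt n a) : SpAlg F ⊆ WZero F := by
  rintro x ⟨hx, h⟩
  refine ⟨hx, fun j => ?_⟩
  have h1 := h (X (Fin.castAdd (n + 1) j)) ⟨1, isHomogeneous_X _ _⟩ (by
    intro K _ _ t y ht hy hgt
    unfold val
    rw [aeval_X]
    by_contra hne
    exact hgt (gt_sub hnum ha hV ht hy fun h0 => hne (congrFun h0 j)))
  unfold val at h1
  rw [aeval_X] at h1
  exact h1

/-- **Lang's equivalence** for the irreducible closed subsets. -/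
theorem lang_ci (hnc : n ≤ c + 1) (hnum : Num n c d)
    (ha : Function.Injective fun t : Σ j, Fin (d j) => a t.1 t.2) (hF : ∀ e, IsForm (F e))
    (hV : Cone F ⊆ CompInt n a) {K : Type} [Field K] [Algebra k K] {t : ℕ}
    {y : Fin (c + n + 1) → K} (ht : 1 ≤ t) (hy : SubVar F K t y)
    (hgen : ∀ G : MvPolynomial (Fin (c + n + 1)) k, IsForm G →
      (val y G = 0 ↔ ∀ x ∈ Cone F, val x G = 0)) :
    [GeneralType k K t, SpAlg F ≠ Cone F, SpGm F ≠ Cone F, SpLine F ≠ Cone F,
      ∃ x ∈ Cone F, ∃ j : Fin c, x (Fin.castAdd (n + 1) j) ≠ 0].TFAE := by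
  obtain ⟨h1, h2⟩ := special_ci hnc hnum ha hF hV
  tfae_have 1 → 5 := by
    intro hgt
    by_contra hcon
    push Not at hcon
    have hw : wp y = 0 := by
      funext j
      have := (hgen (X (Fin.castAdd (n + 1) j)) ⟨1, isHomogeneous_X _ _⟩).2 (fun x hx => by
        unfold val
        rw [aeval_X]
        exact hcon x hx j)
      unfold val at this
      rw [aeval_X] at this
      exact this
    obtain ⟨-, p, q, u, v, hv, htr, hli, hyy⟩ := line_struct hnc hnum.pos ha hy.ne
      (onCI_of hV hy.ne hy.mem) hw (trdeg_ne ht hy) hy.gen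
    have htop : IntermediateField.adjoin k {u / v} = (⊤ : IntermediateField k K) := by
      rw [eq_top_iff, ← hy.gen]
      set A := IntermediateField.adjoin k {u / v} with hA
      have h5 : u / v ∈ A := IntermediateField.mem_adjoin_simple_self _ _
      have h6 : ∀ i, y i / v ∈ A := by
        intro i
        have h7 : y i / v = algebraMap k K (p i) + u / v * algebraMap k K (q i) := by
          rw [congrFun hyy i]
          field_simp
        rw [h7]
        exact A.add_mem (A.algebraMap_mem _) (A.mul_mem h5 (A.algebraMap_mem _))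
      unfold coords
      rw [IntermediateField.adjoin_le_iff]
      rintro _ ⟨i, j, hj, rfl⟩
      have h7 : y i / y j = (y i / v) / (y j / v) := by field_simp
      rw [h7]
      exact A.div_mem (h6 i) (h6 j)
    exact not_gt_ruled (M := k) htr htop t hgt
  tfae_have 5 → 2 := by
    rintro ⟨x, hx, j, hj⟩ h
    rw [← h] at hx
    exact hj ((spAlg_w hnum ha hV hx).2 j)
  tfae_have 2 → 1 := by
    intro h
    by_contra hgt
    apply h
    refine Set.Subset.antisymm (fun x hx => hx.1) fun x hx => ⟨hx, fun G hG hall => ?_⟩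
    exact (hgen G hG).1 (hall K t y ht hy hgt) x hx
  tfae_have 2 ↔ 4 := by rw [h1]
  tfae_have 3 ↔ 4 := by rw [h2]
  tfae_finish

end alg

end Pool.Agent.Y190.CI
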