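import Pool.Agent.Y190.CI.Dg
import Pool.Agent.Y190.CI.Res

/-!
The degrees of the curves on the complete intersections.
-/

set_option autoImplicit false

open FF Pool.Agent.W603.LV Pool.Agent.W602.GT Polynomial

namespace Pool.Agent.Y190.CI

open Pool.Agent.Y190.BV Pool.Agent.Y190.SC Pool.Agent.Y115.CI Pool.Agent.Y216 Pool.Agent.W603.PV

/-- either all ratios are constant or the field is algebraic over the field of the ratios -/
theorem const_or_alg {k K : Type} [Field k] [Field K] [Algebra k K] [IsAlgClosed k] [CharZero k]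
    [IsFF k K] {N : ℕ} {h : Fin (N + 1) → K} (hh : h ≠ 0) :
    (∃ (u : K) (p : Fin (N + 1) → k), u ≠ 0 ∧ h = fun i => u * algebraMap k K (p i)) ∨
      Algebra.IsAlgebraic (coords k h) K := by
  obtain ⟨i0, hi0⟩ := Function.ne_iff.1 hh
  by_cases hall : ∀ i, IsAlgebraic k (h i / h i0)
  · left
    have h1 : ∀ i, ∃ c : k, h i / h i0 = algebraMap k K c := fun i => const_of_algebraic (hall i)
    choose p hp using h1
    refine ⟨h i0, p, hi0, funext fun i => ?_⟩
    rw [← hp i, mul_div_cancel₀ _ hi0]
  · right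
    push Not at hall
    obtain ⟨i, hi⟩ := hall
    refine alg_coords (E := IntermediateField.adjoin k {h i / h i0}) ?_ (IsFF.isAlgebraic hi)
    rw [IntermediateField.adjoin_le_iff, Set.singleton_subset_iff]
    exact IntermediateField.subset_adjoin k _ ⟨i, i0, hi0, rfl⟩

theorem cnt_const {k K : Type} [Field k] [Field K] [Algebra k K] {N : ℕ} {h : Fin (N + 1) → K}
    (hh : h ≠ 0) {u : K} {p : Fin (N + 1) → k} (hu : u ≠ 0)
    (hp : h = fun i => u * algebraMap k K (p i)) (P : Place k K) : cnt P (pol h) = P.ord u := by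
  apply cnt_unique
  · intro j
    by_cases hj : j < N + 1
    · rw [coeff_pol_lt _ hj, hp]
      have h1 : Ge P (P.ord u) u := Or.inr le_rfl
      have h2 := h1.mul (Ge.const (P := P) (p ⟨j, hj⟩))
      rwa [add_zero] at h2
    · rw [coeff_pol_ge _ (by omega)]
      exact Or.inl rfl
  · obtain ⟨i, hi⟩ := Function.ne_iff.1 hh
    have hpi : p i ≠ 0 := by
      intro h0
      apply hi
      rw [hp]
      simp [h0]
    refine ⟨(i : ℕ), ?_, ?_⟩
    · rw [coeff_pol]
      exact hi
    · rw [coeff_pol, hp, P.ord_mul hu ((_root_.map_ne_zero _).2 hpi), P.ord_const hpi, add_zero]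

/-- **The degrees of the curves.** -/
theorem deg_ci {k : Type} [Field k] [IsAlgClosed k] [CharZero k] : ∀ (c n : ℕ) (d : Fin c → ℕ)
    (a : (j : Fin c) → Fin (d j) → k) (κ : Fin c → k), Num n c d →
    (Function.Injective fun t : Σ j, Fin (d j) => a t.1 t.2) → (∀ j, κ j ≠ 0) →
    ∀ (K : Type) [Field K] [Algebra k K] [IsFF k K] (w : Fin c → K) (h : Fin (n + 1) → K),
    OnCI a κ w h → h ≠ 0 → (∃ j, w j ≠ 0) →
    - ∑ᶠ P : Place k K, cnt P (pol h) ≤ n * max (canDeg k K) 0 := by
  intro c
  induction c with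
  | zero =>
    rintro n d a κ - - - K _ _ _ w h - - ⟨j, -⟩
    exact j.elim0
  | succ c ih =>
    intro n d a κ hnum ha hκ K _ _ _ w h ho hh hw
    have hmx : (0 : ℤ) ≤ max (canDeg k K) 0 := le_max_right _ _
    have hinf : Infinite k := inferInstance
    rcases const_or_alg (k := k) hh with ⟨u, p, hu, hp⟩ | halg
    · rw [finsum_congr fun P => cnt_const hh hu hp P, sum_ord (k := k) u, neg_zero]
      exact mul_nonneg (Int.natCast_nonneg _) hmx
    by_cases hall : ∀ j, w j ≠ 0
    · have hb := hnum.base (Nat.succ_pos c)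
      obtain ⟨e, he⟩ : ∃ e, ∑ j, d j = n * (c + 1 + 2) + e := ⟨_, (Nat.add_sub_of_le hb.le).symm⟩
      have he1 : 1 ≤ e := by omega
      have hM := MM_pos hnum.pos
      have h1 := deg_sum (nodes (d := d) (a := a)) (nodes_inj (d := d) ha) (M := MM d)
        (s0 := MM d * e) (c := wt d) hM (by
          rw [sum_wt, he]
          apply le_of_eq
          ring) (pol h) (Pool.Agent.Y216.LG.pol_ne hh) (natDegree_pol_le h) (by
          rw [← IntermediateField.isAlgebraic_adjoin_iff_top]
          refine alg_coords ?_ halg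
          unfold coords
          rw [IntermediateField.adjoin_le_iff]
          rintro _ ⟨i, j, hj, rfl⟩
          exact IntermediateField.subset_adjoin k _ ⟨(i : ℕ), (j : ℕ), by
            rw [coeff_pol, coeff_pol]⟩) (fun s => eval_ne ho (hall _) _)
        (fun P => sumC_flat ho hall P)
      set X := - ∑ᶠ P : Place k K, cnt P (pol h) with hX
      push_cast at h1
      have hM' : (0 : ℤ) < MM d := by exact_mod_cast hM
      have he' : (1 : ℤ) ≤ e := by exact_mod_cast he1
      have h2 : (e : ℤ) * X ≤ n * max (canDeg k K) 0 := by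
        have h3 : (MM d : ℤ) * (e * X) ≤ MM d * (n * max (canDeg k K) 0) := by
          calc (MM d : ℤ) * (e * X) = MM d * e * X := by ring
            _ ≤ _ := h1
            _ = _ := by ring
        exact le_of_mul_le_mul_left h3 hM'
      rcases le_total X 0 with h4 | h4
      · exact h4.trans (mul_nonneg (Int.natCast_nonneg _) hmx)
      · refine le_trans ?_ h2
        exact le_mul_of_one_le_left h4 he'
    · push Not at hall
      obtain ⟨j0, hj0⟩ := hall
      have h1 := ho j0
      rw [hj0, zero_pow (hnum.pos j0).ne'] at h1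
      have h2 := (mul_eq_zero.1 h1.symm).resolve_left ((_root_.map_ne_zero _).2 (hκ j0))
      obtain ⟨i0, -, h3⟩ := Finset.prod_eq_zero_iff.1 h2
      cases n with
      | zero =>
        exfalso
        apply hh
        have h4 : (pol h).eval (algebraMap k K (a j0 i0)) = h 0 := by
          unfold pol
          simp
        funext l
        have h5 : l = 0 := Fin.ext (by omega)
        rw [h5, ← h4, h3]
        rfl
      | succ n =>
        obtain ⟨j1, hj1⟩ := hw
        have hne : j1 ≠ j0 := by
          rintro rfl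
          exact hj1 hj0
        obtain ⟨i1, hi1⟩ := Fin.exists_succAbove_eq hne
        have h4 := ih n _ _ _ (hnum.step j0) (by
          rintro ⟨i, s⟩ ⟨i', s'⟩ hs
          have h4 := @ha ⟨j0.succAbove i, s⟩ ⟨j0.succAbove i', s'⟩ hs
          rw [Sigma.mk.injEq] at h4
          obtain ⟨h5, h6⟩ := h4
          have h7 := j0.succAbove_right_injective h5
          subst h7
          rw [heq_eq_eq] at h6
          rw [h6]) (by
          intro i
          refine mul_ne_zero (hκ _) (Finset.prod_ne_zero_iff.2 fun s _ => sub_ne_zero.2 ?_)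
          intro h4
          have h5 := @ha ⟨j0.succAbove i, s⟩ ⟨j0, i0⟩ h4
          rw [Sigma.mk.injEq] at h5
          exact j0.succAbove_ne i h5.1) K _ _ (ho.step j0 i0 h3) (dv_ne h3 hh) ⟨i1, by
          rw [hi1]
          exact hj1⟩
        have h5 : ∀ P : Place k K, cnt P (pol h) =
            cnt P (pol (dv (algebraMap k K (a j0 i0)) h)) := by
          intro P
          rw [← pol_mul h3, cnt_mul P (X_sub_C_ne_zero _)
            (Pool.Agent.Y216.LG.pol_ne (dv_ne h3 hh)), cnt_X_sub_C, zero_add]
        rw [finsum_congr h5]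
        refine h4.trans (mul_le_mul_of_nonneg_right ?_ hmx)
        push_cast
        linarith

/-- the height on the complete intersection -/
theorem pht_le_cnt {k K : Type} [Field k] [Field K] [Algebra k K] [IsAlgClosed k] [CharZero k]
    [IsFF k K] {c n : ℕ} {d : Fin c → ℕ} {a : (j : Fin c) → Fin (d j) → k} {κ : Fin c → k}
    (hd : ∀ j, 0 < d j) {y : Fin (c + n + 1) → K} (hy0 : y ≠ 0) (ho : OnCI a κ (wp y) (hp y)) :
    pht k y = - ∑ᶠ P : Place k K, cnt P (pol (hp y)) := by
  have hh := hp_ne hd hy0 ho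
  obtain ⟨l0, hl0⟩ := Function.ne_iff.1 hh
  unfold pht
  congr 1
  refine finsum_congr fun P => ?_
  apply le_antisymm
  · obtain ⟨j, hj, hj2⟩ := cnt_att P (Pool.Agent.Y216.LG.pol_ne hh)
    rw [← hj2]
    by_cases hjn : j < n + 1
    · rw [coeff_pol_lt _ hjn] at hj ⊢
      exact pord_le P hj
    · rw [coeff_pol_ge _ (by omega)] at hj
      exact absurd rfl hj
  · obtain ⟨i, hi, hi2⟩ := exists_pord P (f := y) ⟨_, hl0⟩
    rw [← hi2]
    clear hi2
    revert hi
    refine Fin.addCases (m := c) (n := n + 1) (fun j hj => ?_) (fun l hl => ?_) i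
    · have h1 := ho j
      have h2 : algebraMap k K (κ j) * ∏ i, (pol (hp y)).eval (algebraMap k K (a j i)) ≠ 0 := by
        rw [← h1]
        exact pow_ne_zero _ hj
      have h3 : Ge P ((d j : ℤ) * cnt P (pol (hp y)))
          (algebraMap k K (κ j) * ∏ i, (pol (hp y)).eval (algebraMap k K (a j i))) := by
        have h4 := (Ge.const (P := P) (κ j)).mul (Ge.prod Finset.univ
          (fun i => (pol (hp y)).eval (algebraMap k K (a j i)))
          (fun _ => cnt P (pol (hp y))) (fun i _ => cnt_eval P _ _))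
        rw [Finset.sum_const, Finset.card_univ, Fintype.card_fin, nsmul_eq_mul, zero_add] at h4
        exact h4
      have h5 := h3.resolve_left h2
      rw [← h1, P.ord_pow] at h5
      exact le_of_mul_le_mul_left h5 (by exact_mod_cast hd j)
    · have h1 := cnt_ge P (pol (hp y)) (l : ℕ)
      rw [coeff_pol] at h1
      exact h1.resolve_left hl

/-- **The degrees of the curves**: every curve on a complete intersection of linear degree which is
not contained in `w = 0` has degree at most `n * (2 * g - 2)`. -/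
theorem curve_ci {k K : Type} [Field k] [Field K] [Algebra k K] [IsAlgClosed k] [CharZero k]
    [IsFF k K] {c n : ℕ} {d : Fin c → ℕ} {a : (j : Fin c) → Fin (d j) → k} (hnum : Num n c d)
    (ha : Function.Injective fun t : Σ j, Fin (d j) => a t.1 t.2) {κ : Fin c → k}
    (hκ : ∀ j, κ j ≠ 0) {y : Fin (c + n + 1) → K} (hy0 : y ≠ 0) (ho : OnCI a κ (wp y) (hp y))
    (hw : wp y ≠ 0) : pht k y ≤ n * max (canDeg k K) 0 := by
  rw [pht_le_cnt hnum.pos hy0 ho]
  obtain ⟨j, hj⟩ := Function.ne_iff.1 hw
  exact deg_ci c n d a κ hnum ha hκ K (wp y) (hp y) ho (hp_ne hnum.pos hy0 ho) ⟨j, hj⟩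

/-- **Lines**: the curves in `w = 0` if `n ≤ c + 1`. -/
theorem line_cur {k : Type} [Field k] {K : Type} [Field K] [Algebra k K] {c n : ℕ}
    {d : Fin c → ℕ} [IsAlgClosed k] (hnc : n ≤ c + 1) (hd : ∀ j, 0 < d j) {a : (j : Fin c) → Fin (d j) → k} (ha : Function.Injective fun t : Σ j, Fin (d j) => a t.1 t.2)
    {y : Fin (c + n + 1) → K} (hy0 : y ≠ 0) (ho : OnCI a (fun _ => 1) (wp y) (hp y))
    (hw : wp y = 0) (hbot : coords k y ≠ ⊥) :
    n = c + 1 ∧ ∃ (p q : Fin (c + n + 1) → k) (u v : K), v ≠ 0 ∧ Transcendental k (u / v) ∧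
      LinearIndependent k ![p, q] ∧
      y = fun i => v * algebraMap k K (p i) + u * algebraMap k K (q i) := by
  have hh := hp_ne hd hy0 ho
  obtain ⟨i, H1, hH1⟩ := vanish_div hd ha (fun _ => one_ne_zero) ho hw
  set B := BB a i with hB
  have hH : pol (hp y) ≠ 0 := Pool.Agent.Y216.LG.pol_ne hh
  have hH10 : H1 ≠ 0 := by
    rintro rfl
    rw [mul_zero] at hH1
    exact hH hH1
  have hBK : B.map (algebraMap k K) ≠ 0 :=
    (Polynomial.map_ne_zero_iff (algebraMap k K).injective).2 (BB_ne a i)
  have hdeg := natDegree_pol_le (hp y)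
  rw [hH1, natDegree_mul hBK hH10, natDegree_map, hB, BB_deg] at hdeg
  have hH1d : H1.natDegree ≤ 1 := by omega
  set v := H1.coeff 0 with hv
  set u := H1.coeff 1 with hu
  have hH1e : H1 = C v + C u * X := by
    rw [eq_X_add_C_of_natDegree_le_one hH1d, add_comm]
  have hyl : ∀ l : Fin (n + 1), y (Fin.natAdd c l) =
      v * algebraMap k K (B.coeff l) + u * algebraMap k K ((X * B).coeff l) := by
    intro l
    have h1 := coeff_pol (hp y) l
    rw [hH1, hH1e, mul_add, coeff_add, mul_comm _ (C v), coeff_C_mul, coeff_map,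
      show B.map (algebraMap k K) * (C u * X) = C u * (X * B).map (algebraMap k K) by
        rw [Polynomial.map_mul, map_X]; ring, coeff_C_mul, coeff_map] at h1
    exact h1.symm
  have hyj : ∀ j : Fin c, y (Fin.castAdd (n + 1) j) = 0 := fun j => congrFun hw j
  have hy : y = fun i => v * algebraMap k K (pt c n (fun l => B.coeff l) i) +
      u * algebraMap k K (pt c n (fun l => (X * B).coeff l) i) := by
    funext i
    refine Fin.addCases (m := c) (n := n + 1) (fun j => ?_) (fun l => ?_) i
    · rw [hyj]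
      erw [pt_left, pt_left]
      rw [map_zero, mul_zero, mul_zero, add_zero]
    · rw [hyl]
      erw [pt_right, pt_right]
  have hv0 : v ≠ 0 := by
    intro h0
    have hu0 : u ≠ 0 := by
      intro h1
      apply hH10
      rw [hH1e, h0, h1]
      simp
    refine hbot (coords_const hu0 (p := pt c n (fun l => (X * B).coeff l)) fun i => ?_)
    rw [congrFun hy i, h0, zero_mul, zero_add]
  have htr' : Transcendental k (u / v) := by
    intro halg
    obtain ⟨s, hs⟩ := const_of_algebraic halg
    refine hbot (coords_const hv0 (p := pt c n (fun l => B.coeff l) +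
      s • pt c n (fun l => (X * B).coeff l)) fun i => ?_)
    rw [congrFun hy i, Pi.add_apply, Pi.smul_apply, smul_eq_mul, map_add, map_mul, ← hs]
    field_simp
  have hu0 : u ≠ 0 := by
    intro h0
    rw [h0, zero_div] at htr'
    exact htr' isAlgebraic_zero
  have hH1d' : 1 ≤ H1.natDegree := le_natDegree_of_ne_zero hu0
  have hn : n = c + 1 := by omega
  refine ⟨hn, _, _, u, v, hv0, htr', ?_, hy⟩
  rw [LinearIndependent.pair_iff]
  intro s t hst
  have h1 : (C s + C t * X) * B = 0 := by
    ext l
    rw [coeff_zero]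
    by_cases hl : l < n + 1
    · have h2 := congrFun hst (Fin.natAdd c ⟨l, hl⟩)
      rw [Pi.add_apply, Pi.smul_apply, Pi.smul_apply, smul_eq_mul, smul_eq_mul] at h2
      erw [pt_right, pt_right] at h2
      rw [add_mul, coeff_add, coeff_C_mul, mul_assoc, coeff_C_mul]
      exact h2
    · refine coeff_eq_zero_of_natDegree_lt (lt_of_le_of_lt natDegree_mul_le ?_)
      have h3 : (C s + C t * X : k[X]).natDegree ≤ 1 := by
        refine (natDegree_add_le _ _).trans ?_
        rw [natDegree_C]
        exact max_le (by omega) ((natDegree_C_mul_le t X).trans natDegree_X_le)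
      rw [hB, BB_deg]
      omega
  have h2 := (mul_eq_zero.1 h1).resolve_right (BB_ne a i)
  have h3 := congrArg (fun f : k[X] => f.coeff 0) h2
  have h4 := congrArg (fun f : k[X] => f.coeff 1) h2
  simp at h3 h4
  exact ⟨h3, h4⟩


/-- the height of a constant point -/
theorem pht_bot {k K : Type} [Field k] [Field K] [Algebra k K] [IsAlgClosed k] [CharZero k]
    [IsFF k K] {N : ℕ} {y : Fin (N + 1) → K} (hy0 : y ≠ 0) (hbot : coords k y = ⊥) :
    pht k y = 0 := by
  obtain ⟨i0, hi0⟩ := Function.ne_iff.1 hy0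
  have hi0' : y i0 ≠ 0 := hi0
  have h1 : ∀ i, ∃ p : k, algebraMap k K p = y i / y i0 := by
    intro i
    have h2 : y i / y i0 ∈ coords k y := IntermediateField.subset_adjoin k _ ⟨i, i0, hi0', rfl⟩
    rw [hbot] at h2
    exact IntermediateField.mem_bot.1 h2
  choose p hp using h1
  have h3 : ∀ P : Place k K, pord P y = P.ord (y i0) := by
    intro P
    refine le_antisymm (pord_le P hi0') ?_
    obtain ⟨j, hj, hj2⟩ := exists_pord P (f := y) ⟨i0, hi0'⟩
    rw [← hj2]
    have h4 : y j = y i0 * algebraMap k K (p j) := by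
      rw [hp, mul_div_cancel₀ _ hi0']
    have h5 : p j ≠ 0 := by
      intro h0
      rw [h0, map_zero, mul_zero] at h4
      exact hj h4
    rw [h4, P.ord_mul hi0' ((_root_.map_ne_zero _).2 h5), P.ord_const h5, add_zero]
  unfold pht
  rw [finsum_congr h3, sum_ord (k := k) (y i0), neg_zero]

/-- **Curves in closed subsets** of the complete intersection, if `n ≤ c + 1`: the degree is
bounded or there is a line. -/
theorem curve_or_line {k K : Type} [Field k] [Field K] [Algebra k K] [IsAlgClosed k] [CharZero k]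
    [IsFF k K] {c n : ℕ} {d : Fin c → ℕ} {a : (j : Fin c) → Fin (d j) → k} (hnc : n ≤ c + 1)
    (hnum : Num n c d) (ha : Function.Injective fun t : Σ j, Fin (d j) => a t.1 t.2) {ι : Type}
    {F : ι → MvPolynomial (Fin (c + n + 1)) k} (hF : ∀ e, IsForm (F e))
    (hV : Cone F ⊆ CompInt n a) {y : Fin (c + n + 1) → K} (hy0 : y ≠ 0)
    (hy : ∀ e, val y (F e) = 0) :
    pht k y ≤ n * max (canDeg k K) 0 ∨ ∃ p q, Line F p q ∧
      ∀ G : MvPolynomial (Fin (c + n + 1)) k, IsForm G →
        (∀ s s' : k, val (s • p + s' • q) G = 0) → val y G = 0 := by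
  have hinf : Infinite k := inferInstance
  have ho := onCI_of hV hy0 hy
  by_cases hw : wp y = 0
  · by_cases hbot : coords k y = ⊥
    · left
      rw [pht_bot hy0 hbot]
      exact mul_nonneg (Int.natCast_nonneg _) (le_max_right _ _)
    · right
      obtain ⟨-, p, q, u, v, hv, htr, hli, hyy⟩ := line_cur hnc hnum.pos ha hy0 ho hw hbot
      refine ⟨p, q, ⟨hli, fun s s' e => gen_line (hF e) hv htr ?_ s s'⟩, fun G hG hall => ?_⟩
      · rw [← hyy]
        exact hy e
      · rw [hyy]
        exact line_ext hG hv hall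
  · left
    exact curve_ci hnum ha (fun _ => one_ne_zero) hy0 ho hw

end Pool.Agent.Y190.CI
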