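import Pool.Agent.Y115.CI.Deg
import Pool.Agent.Y190.CI.Alg
import Pool.Agent.Y190.PH.Bnd

/-!
The degrees of the curves on a complete intersection of linear degree.
-/

set_option autoImplicit false

open FF Pool.Agent.W603.LV Pool.Agent.W602.GT Polynomial

namespace Pool.Agent.Y190.CI

open Pool.Agent.Y190.BV Pool.Agent.Y190.SC Pool.Agent.Y115.CI Pool.Agent.Y216 Pool.Agent.W603.PV

variable {k K : Type} [Field k] [Field K] [Algebra k K]

theorem cnt_X_sub_C (P : Place k K) (z : k) : cnt P (X - C (algebraMap k K z)) = 0 := by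
  apply cnt_unique
  · intro j
    rw [Polynomial.coeff_sub, Polynomial.coeff_X, Polynomial.coeff_C]
    refine Ge.sub ?_ ?_
    · split_ifs
      · exact Ge.one
      · exact Ge.zero
    · split_ifs
      · exact Ge.const _
      · exact Ge.zero
  · refine ⟨1, ?_, ?_⟩
    · rw [Polynomial.coeff_sub, Polynomial.coeff_X_one, Polynomial.coeff_C_of_ne_zero one_ne_zero,
        sub_zero]
      exact one_ne_zero
    · rw [Polynomial.coeff_sub, Polynomial.coeff_X_one, Polynomial.coeff_C_of_ne_zero one_ne_zero,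
        sub_zero, P.ord_one]

theorem cnt_prod (P : Place k K) [Infinite k] {ι : Type*} (s : Finset ι) (F : ι → K[X])
    (h : ∀ i ∈ s, F i ≠ 0) : cnt P (∏ i ∈ s, F i) = ∑ i ∈ s, cnt P (F i) := by
  classical
  induction s using Finset.induction_on with
  | empty => rw [Finset.prod_empty, Finset.sum_empty, cnt_one]
  | insert a s ha ih =>
    rw [Finset.prod_insert ha, Finset.sum_insert ha,
      cnt_mul P (h a (Finset.mem_insert_self a s)) (Finset.prod_ne_zero_iff.2 fun i hi =>
        h i (Finset.mem_insert_of_mem hi)),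
      ih fun i hi => h i (Finset.mem_insert_of_mem hi)]

theorem cnt_pow (P : Place k K) [Infinite k] {F : K[X]} (h : F ≠ 0) (n : ℕ) :
    cnt P (F ^ n) = n * cnt P F := by
  induction n with
  | zero => rw [pow_zero, cnt_one, Nat.cast_zero, zero_mul]
  | succ n ih =>
    rw [pow_succ, cnt_mul P (pow_ne_zero _ h) h, ih]
    push_cast
    ring

/-- only finitely many places matter -/
theorem cnt_fin [IsAlgClosed k] [CharZero k] [IsFF k K] {H : K[X]} (hH : H ≠ 0) :
    (Function.support fun P : Place k K => cnt P H).Finite := by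
  classical
  obtain ⟨T, hT⟩ := exists_supp (k := k) H.support (fun j => H.coeff j)
  refine T.finite_toSet.subset fun P hP => ?_
  obtain ⟨j, hj, hj2⟩ := cnt_att P hH
  refine hT j (Polynomial.mem_support_iff.2 hj) P ?_
  rw [hj2]
  exact hP

/-- **The degree inequality.** -/
theorem deg_sum [IsAlgClosed k] [CharZero k] [IsFF k K] {n q : ℕ}
    (a : Fin q → k) (ha : Function.Injective a) {M s0 : ℕ} {c : Fin q → ℕ} (hM : 0 < M)
    (hbound : n * ∑ i, c i + 2 * n * M + s0 ≤ q * M) (H : K[X]) (hH : H ≠ 0)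
    (hdeg : H.natDegree ≤ n)
    (halg : Algebra.IsAlgebraic (Algebra.adjoin k {x | ∃ i j, x = H.coeff i / H.coeff j}) K)
    (h0 : ∀ i, H.eval (algebraMap k K (a i)) ≠ 0)
    (hram : ∀ P : Place k K, SumC M c a H P) :
    (s0 : ℤ) * (- ∑ᶠ P : Place k K, cnt P H) ≤ M * n * max (canDeg k K) 0 := by
  classical
  have hchK : CharZero K := charZero_of_injective_algebraMap (algebraMap k K).injective
  have hinf : Infinite k := inferInstance
  obtain ⟨T, e, u, hu, hT, hHT, hTall⟩ := factor hH
  set T1 : Finset K[X] := T.filter (fun p => ∀ c : k, p.eval (algebraMap k K c) ≠ 0) with hT1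
  have hT1T : ∀ p ∈ T1, p ∈ T := fun p hp => (Finset.mem_filter.1 hp).1
  have hT1c : ∀ p ∈ T1, ∀ c : k, p.eval (algebraMap k K c) ≠ 0 := fun p hp =>
    (Finset.mem_filter.1 hp).2
  have hT2 : ∀ p ∈ T, p ∉ T1 → ∃ c : k, p.eval (algebraMap k K c) = 0 := by
    intro p hp hp1
    by_contra hcon
    push Not at hcon
    exact hp1 (Finset.mem_filter.2 ⟨hp, hcon⟩)
  -- the Galois extension
  let Q : K[X] := ∏ p ∈ T, p
  have hqsep : Q.Separable := by
    refine Polynomial.separable_prod' ?_ ?_
    · intro p hp r hr hpr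
      exact coprime_of_ne (hT p hp).1 (hT r hr).1 (hT p hp).2.1 (hT r hr).2.1 hpr
    · intro p hp
      exact (hT p hp).1.separable
  let L := Q.SplittingField
  have hgal : IsGalois K L := IsGalois.of_separable_splitting_field hqsep
  have hqs : (Q.map (algebraMap K L)).Splits := Polynomial.SplittingField.splits Q
  have hps : ∀ p ∈ T, (p.map (algebraMap K L)).Splits := by
    intro p hp
    exact hqs.of_dvd (Polynomial.map_ne_zero hqsep.ne_zero)
      (Polynomial.map_dvd _ (Finset.dvd_prod_of_mem _ hp))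
  have hHs : (H.map (algebraMap K L)).Splits := by
    rw [hHT, Polynomial.map_mul, Polynomial.map_C, Polynomial.map_prod]
    refine (Polynomial.Splits.C _).mul (Polynomial.Splits.prod fun p hp => ?_)
    rw [Polynomial.map_pow]
    exact (hps p hp).pow _
  let S : Set L := {t | ∃ p ∈ T1, aeval t p = 0}
  have hS : Algebra.IsAlgebraic (Algebra.adjoin k S) L := by
    refine alg_of_roots H hH hHs halg _ fun t ht => ?_
    rw [hHT, map_mul, aeval_C, map_prod] at ht
    have h1 := (mul_eq_zero.1 ht).resolve_left ((_root_.map_ne_zero _).2 hu)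
    obtain ⟨p, hp, hp2⟩ := Finset.prod_eq_zero_iff.1 h1
    rw [map_pow] at hp2
    have hp3 := eq_zero_of_pow_eq_zero hp2
    by_cases hp1 : p ∈ T1
    · exact IntermediateField.subset_adjoin k _ ⟨p, hp1, hp3⟩
    · obtain ⟨i, hi⟩ := hT2 p hp hp1
      rw [eq_X_sub_C (hT p hp).1 (hT p hp).2.1 hi, map_sub, aeval_X, aeval_C, sub_eq_zero] at hp3
      rw [hp3, ← IsScalarTower.algebraMap_apply]
      exact IntermediateField.algebraMap_mem _ _
  have htrL : Algebra.trdeg k L = (1 : ℕ) := by
    rw [trdeg_ext (K := K), IsFF.trdeg (k := k) (K := K), Nat.cast_one]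
  -- roots
  have hroot : ∀ x : T1, ∃ t : L, aeval t x.1 = 0 := by
    intro x
    obtain ⟨t, ht⟩ := (hps x.1 (hT1T _ x.2)).exists_eval_eq_zero (by
      rw [Polynomial.degree_map]
      exact (Polynomial.degree_pos_of_irreducible (hT _ (hT1T _ x.2)).1).ne')
    refine ⟨t, ?_⟩
    rwa [Polynomial.eval_map_algebraMap] at ht
  choose base hbase using hroot
  have htrans : ∀ x, Transcendental k (base x) := by
    intro x h1
    obtain ⟨y, hy⟩ := const_of_algebraic h1
    have h2 := hbase x
    rw [hy, IsScalarTower.algebraMap_apply k K L, aeval_algebraMap_apply, map_eq_zero,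
      coe_aeval_eq_eval] at h2
    exact hT1c x.1 x.2 y h2
  let ι : Type := Σ x : T1, Fin (e x.1 * x.1.natDegree)
  have hJ : ∀ l : ι, ∃ y : Fin 1 → L, IsTranscendenceBasis k y ∧ (∀ j, y j ∈ S) ∧
      ∃ j, y j = base l.1 := fun l =>
    exists_basis_through htrL S hS ⟨l.1.1, l.1.2, hbase l.1⟩ (htrans l.1)
  choose J hJb hJS j0 hj0 using hJ
  have hc : ∀ l j, ∃ x : T1, aeval (J l j) x.1 = 0 := by
    intro l j
    obtain ⟨p, hp, hp2⟩ := hJS l j
    exact ⟨⟨p, hp⟩, hp2⟩
  choose cc hcc using hc
  have hcj0 : ∀ l, cc l (j0 l) = l.1 := by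
    intro l
    have h1 : (cc l (j0 l)).1 = minpoly K (base l.1) := by
      rw [← hj0 l]
      exact minpoly.eq_of_irreducible_of_monic (hT _ (hT1T _ (cc l (j0 l)).2)).1 (hcc l (j0 l))
        (hT _ (hT1T _ (cc l (j0 l)).2)).2.1
    have h2 : l.1.1 = minpoly K (base l.1) :=
      minpoly.eq_of_irreducible_of_monic (hT _ (hT1T _ l.1.2)).1 (hbase l.1)
        (hT _ (hT1T _ l.1.2)).2.1
    exact Subtype.ext (h1.trans h2.symm)
  let F : Fam K L T1 ι 1 :=
    { p := fun x => x.1
      irr := fun x => (hT _ (hT1T _ x.2)).1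
      mon := fun x => (hT _ (hT1T _ x.2)).2.1
      sep := fun x => (hT _ (hT1T _ x.2)).1.separable
      e := fun x => e x.1
      pos := fun x => (hT _ (hT1T _ x.2)).2.2.2.1
      J := J
      c := cc
      root := hcc
      base := base
      broot := hbase
      cover := by
        intro G hG
        have h1 : ∀ l : ι, G l.1 ≤ ∑ j, G (cc l j) := by
          intro l
          have h2 := Finset.single_le_sum (f := fun j => G (cc l j)) (fun j _ => hG _)
            (Finset.mem_univ (j0 l))
          simp only [hcj0] at h2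
          exact h2
        have h2 := Finset.sum_le_sum fun l (_ : l ∈ (Finset.univ : Finset ι)) => h1 l
        refine le_trans (le_of_eq ?_) h2
        rw [Fintype.sum_sigma]
        refine Finset.sum_congr rfl fun x _ => ?_
        change _ = ∑ _y : Fin (e x.1 * x.1.natDegree), G x
        rw [Finset.sum_const, Finset.card_univ, Fintype.card_fin, nsmul_eq_mul] }
  have hF : F.H = ∏ p ∈ T1, p ^ e p := by
    unfold Fam.H
    exact Finset.prod_coe_sort T1 (fun p => p ^ e p)
  have hdvd : (∏ p ∈ T1, p ^ e p) ∣ H := by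
    rw [hHT]
    refine Dvd.dvd.mul_left ?_ _
    exact Finset.prod_dvd_prod_of_subset _ _ _ hT1T
  have hcard : Fintype.card ι ≤ n := by
    rw [Fintype.card_sigma]
    have h1 : (∏ p ∈ T1, p ^ e p).natDegree = ∑ p ∈ T1, e p * p.natDegree := by
      rw [Polynomial.natDegree_prod _ _ fun p hp => pow_ne_zero _ (hT p (hT1T p hp)).1.ne_zero]
      exact Finset.sum_congr rfl fun p _ => Polynomial.natDegree_pow _ _
    have h2 : ∑ x : T1, Fintype.card (Fin (e x.1 * x.1.natDegree)) =
        ∑ p ∈ T1, e p * p.natDegree := by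
      rw [← Finset.sum_coe_sort T1 (fun p => e p * p.natDegree)]
      exact Finset.sum_congr rfl fun x _ => Fintype.card_fin _
    rw [h2, ← h1]
    exact (Polynomial.natDegree_le_of_dvd hdvd hH).trans hdeg
  have hdegp : ∀ x : T1, x.1.natDegree ≤ n := fun x =>
    (Polynomial.natDegree_le_of_dvd (hT _ (hT1T _ x.2)).2.2.1 hH).trans hdeg
  have hne : Nonempty ι := by
    by_contra hcon
    rw [not_nonempty_iff] at hcon
    have hT1e : ∀ p ∈ T1, False := by
      intro p hp
      have h1 : 0 < e p * p.natDegree :=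
        Nat.mul_pos (hT p (hT1T p hp)).2.2.2.1 (hT p (hT1T p hp)).1.natDegree_pos
      exact hcon.false ⟨⟨p, hp⟩, ⟨0, h1⟩⟩
    obtain ⟨x, _, hx⟩ := exists_basis_in htrL S hS
    obtain ⟨p, hp, _⟩ := hx 0
    exact hT1e p hp
  have h0' : ∀ (x : T1) (i : Fin q), x.1.eval (algebraMap k K (a i)) ≠ 0 := fun x i =>
    hT1c x.1 x.2 (a i)
  have hmain : (s0 : ℤ) * (- ∑ᶠ P : Place k K, cnt P F.H) ≤
      M * Fintype.card ι * canDeg k K := by
    refine s_deg k K L _ _ F hJb q a ha M s0 c hM h0' ?_ ?_
    · intro x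
      have h1 : Fintype.card ι * ∑ i, c i ≤ n * ∑ i, c i := Nat.mul_le_mul_right _ hcard
      have h2 : 2 * x.1.natDegree * M ≤ 2 * n * M :=
        Nat.mul_le_mul_right _ (Nat.mul_le_mul_left _ (hdegp x))
      change Fintype.card ι * ∑ i, c i + 2 * x.1.natDegree * M + s0 ≤ q * M
      omega
    · intro P
      have hct : ∀ i, ct P F.H (a i) = ct P H (a i) := by
        intro i
        have hi := h0 i
        have hpe : ∀ p ∈ T, p.eval (algebraMap k K (a i)) ≠ 0 := by
          intro p hp h0
          apply hi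
          obtain ⟨r, hr⟩ := (hT p hp).2.2.1
          rw [hr, Polynomial.eval_mul, h0, zero_mul]
        have h2 : ct P H (a i) = ∑ p ∈ T, (e p : ℤ) * ct P p (a i) := by
          have hprod : (∏ p ∈ T, p ^ e p).eval (algebraMap k K (a i)) ≠ 0 := by
            rw [Polynomial.eval_prod]
            refine Finset.prod_ne_zero_iff.2 fun p hp => ?_
            rw [Polynomial.eval_pow]
            exact pow_ne_zero _ (hpe p hp)
          rw [hHT, ct_mul P (by rw [Polynomial.eval_C]; exact hu) hprod, ct_C P hu, zero_add,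
            ct_prod P T _ fun p hp => by
              rw [Polynomial.eval_pow]
              exact pow_ne_zero _ (hpe p hp)]
          exact Finset.sum_congr rfl fun p hp => ct_pow P (hpe p hp) _
        have h4 : ct P H (a i) = ∑ p ∈ T1, (e p : ℤ) * ct P p (a i) := by
          rw [h2]
          symm
          refine Finset.sum_subset (Finset.filter_subset _ _) fun p hp hp1 => ?_
          obtain ⟨c, hc⟩ := hT2 p hp hp1
          have hpX := eq_X_sub_C (hT p hp).1 (hT p hp).2.1 hc
          have hij : a i ≠ c := by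
            intro h
            apply hpe p hp
            rw [h]; exact hc
          rw [hpX, ct_X_sub_C P hij, mul_zero]
        rw [h4, F.ct_H P fun x => h0' x i]
        exact Finset.sum_coe_sort T1 (fun p => (e p : ℤ) * ct P p (a i))
      rcases hram P with h1 | h1
      · left
        intro i
        rw [hct, h1 i]
      · right
        simp only [hct]
        exact h1
  have hcnt : ∀ P : Place k K, cnt P H = P.ord u + cnt P F.H := by
    intro P
    have h1 : cnt P H = P.ord u + ∑ p ∈ T, (e p : ℤ) * cnt P p := by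
      conv_lhs => rw [hHT]
      rw [cnt_mul P (by rwa [Ne, C_eq_zero]) (Finset.prod_ne_zero_iff.2 fun p hp =>
        pow_ne_zero _ (hT p hp).1.ne_zero), cnt_C P hu, cnt_prod P T _ fun p hp =>
        pow_ne_zero _ (hT p hp).1.ne_zero]
      congr 1
      exact Finset.sum_congr rfl fun p hp => cnt_pow P (hT p hp).1.ne_zero _
    have h2 : cnt P F.H = ∑ p ∈ T1, (e p : ℤ) * cnt P p := by
      rw [hF, cnt_prod P T1 _ fun p hp => pow_ne_zero _ (hT p (hT1T p hp)).1.ne_zero]
      exact Finset.sum_congr rfl fun p hp => cnt_pow P (hT p (hT1T p hp)).1.ne_zero _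
    rw [h1, h2]
    congr 1
    symm
    refine Finset.sum_subset (Finset.filter_subset _ _) fun p hp hp1 => ?_
    obtain ⟨c, hc⟩ := hT2 p hp hp1
    rw [eq_X_sub_C (hT p hp).1 (hT p hp).2.1 hc, cnt_X_sub_C, mul_zero]
  have hFH : F.H ≠ 0 := by
    rw [hF]
    exact Finset.prod_ne_zero_iff.2 fun p hp => pow_ne_zero _ (hT p (hT1T p hp)).1.ne_zero
  have hsum : ∑ᶠ P : Place k K, cnt P H = ∑ᶠ P : Place k K, cnt P F.H := by
    have h1 : (fun P : Place k K => cnt P H) = fun P => P.ord u + cnt P F.H := funext hcnt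
    rw [h1, finsum_add_distrib (finite_support u) (cnt_fin hFH), sum_ord, zero_add]
  rw [hsum]
  refine hmain.trans ?_
  have h1 : (Fintype.card ι : ℤ) ≤ n := by exact_mod_cast hcard
  have h2 : canDeg k K ≤ max (canDeg k K) 0 := le_max_left _ _
  have h3 : (0 : ℤ) ≤ max (canDeg k K) 0 := le_max_right _ _
  have hM' : (0 : ℤ) ≤ M := Int.natCast_nonneg _
  calc (M : ℤ) * Fintype.card ι * canDeg k K ≤ M * Fintype.card ι * max (canDeg k K) 0 :=
        mul_le_mul_of_nonneg_left h2 (mul_nonneg hM' (Int.natCast_nonneg _))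
    _ ≤ _ := mul_le_mul_of_nonneg_right (mul_le_mul_of_nonneg_left h1 hM') h3

end Pool.Agent.Y190.CI
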