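import Pool.Agent.Y190.CI.Bi

/-!
Holomorphic maps from the punctured disc to the complete intersections.
-/

set_option autoImplicit false

open MvPolynomial Metric Filter Topology Set

namespace Pool.Agent.Y190.CI

open Pool.Agent.W602.Cov Pool.Agent.W602.Cov.Cover Pool.Agent.W602.Cov.R Pool.Agent.W603.BP
open Pool.Agent.W601.PH Pool.Agent.W602.GT Pool.Agent.Y216 Pool.Agent.Y216.LG
open Pool.Agent.TH152.HY hiding aeval_inr main
open Pool.Agent.Y191 (SemiAbelianOff semi_of_brody lf)
open Pool.Agent.Y190.SC Pool.Agent.Y190.BV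

/-- the empty set -/
noncomputable def emp (N n : ℕ) : BiSet N n where
  eqs := {1}
  hom := by
    rintro G rfl
    exact ⟨0, 0, isWeightedHomogeneous_one ℂ _⟩

theorem emp_mem {N n : ℕ} {L : Type} [Field L] [Algebra ℂ L] {x : Fin (N + 1) → L}
    {y : Fin (n + 1) → L} : ¬ (emp N n).Mem x y := by
  rintro ⟨-, -, h⟩
  have := h 1 rfl
  rw [map_one] at this
  exact one_ne_zero this

/-- a product of analytic functions on a connected set vanishes only if a factor vanishes -/
theorem prod_zero {U : Set ℂ} (hU : IsPreconnected U) {ι : Type} (s : Finset ι) (f : ι → ℂ → ℂ)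
    (hf : ∀ i ∈ s, AnalyticOnNhd ℂ (f i) U) (hne : U.Nonempty)
    (h : ∀ z ∈ U, ∏ i ∈ s, f i z = 0) : ∃ i ∈ s, ∀ z ∈ U, f i z = 0 := by
  classical
  induction s using Finset.induction_on with
  | empty =>
    obtain ⟨z, hz⟩ := hne
    have := h z hz
    rw [Finset.prod_empty] at this
    exact absurd this one_ne_zero
  | insert a s ha ih =>
    have h1 : ∀ z ∈ U, f a z * ∏ i ∈ s, f i z = 0 := by
      intro z hz
      have h2 := h z hz
      rwa [Finset.prod_insert ha] at h2
    have h2 : AnalyticOnNhd ℂ (fun z => ∏ i ∈ s, f i z) U :=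
      Finset.analyticOnNhd_fun_prod s fun i hi => hf i (Finset.mem_insert_of_mem hi)
    rcases AnalyticOnNhd.eq_zero_or_eq_zero_of_mul_eq_zero (hf a (Finset.mem_insert_self a s)) h2
      h1 hU with h3 | h3
    · exact ⟨a, Finset.mem_insert_self a s, h3⟩
    · obtain ⟨i, hi, h4⟩ := ih (fun i hi => hf i (Finset.mem_insert_of_mem hi)) h3
      exact ⟨i, Finset.mem_insert_of_mem hi, h4⟩

theorem dv_an {n : ℕ} {U : Set ℂ} {h : ℂ → Fin (n + 2) → ℂ}
    (hh : ∀ l, AnalyticOnNhd ℂ (fun z => h z l) U) (α : ℂ) (l : Fin (n + 1)) :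
    AnalyticOnNhd ℂ (fun z => dv α (h z) l) U := by
  have hc : ∀ i : ℕ, AnalyticOnNhd ℂ (fun z => (pol (h z)).coeff i) U := by
    intro i
    by_cases hi : i < n + 2
    · have : (fun z => (pol (h z)).coeff i) = fun z => h z ⟨i, hi⟩ := by
        funext z
        exact coeff_pol_lt _ hi
      rw [this]
      exact hh _
    · have : (fun z => (pol (h z)).coeff i) = fun _ => 0 := by
        funext z
        exact coeff_pol_ge _ (by omega)
      rw [this]
      exact analyticOnNhd_const
  have h1 : ∀ t i : ℕ, n + 1 ≤ t + i → AnalyticOnNhd ℂ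
      (fun z => (pol (h z) /ₘ (Polynomial.X - Polynomial.C α)).coeff i) U := by
    intro t
    induction t with
    | zero =>
      intro i hi
      have : (fun z => (pol (h z) /ₘ (Polynomial.X - Polynomial.C α)).coeff i) = fun _ => 0 := by
        funext z
        rw [← pol_dv]
        exact coeff_pol_ge _ (by omega)
      rw [this]
      exact analyticOnNhd_const
    | succ t ih =>
      intro i hi
      have : (fun z => (pol (h z) /ₘ (Polynomial.X - Polynomial.C α)).coeff i) = fun z =>
          (pol (h z)).coeff (i + 1) +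
            α * (pol (h z) /ₘ (Polynomial.X - Polynomial.C α)).coeff (i + 1) := by
        funext z
        exact Polynomial.coeff_divByMonic_X_sub_C_rec _ _ _
      rw [this]
      exact (hc _).add (analyticOnNhd_const.mul (ih (i + 1) (by omega)))
  exact h1 (n + 1) l (by omega)

/-- the multiplication by a linear factor -/
theorem extends_mul {n : ℕ} {α : ℂ} {h : ℂ → Fin (n + 2) → ℂ}
    (h0 : ∀ z ∈ PB 1, (pol (h z)).eval α = 0) (hE : Extends fun z => dv α (h z)) : Extends h := by
  obtain ⟨g, hg1, hg2, hg3⟩ := hE
  have hlin : ∀ (g : Fin (n + 1) → ℂ) (l : Fin (n + 2)),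
      ((Polynomial.X - Polynomial.C α) * pol g).coeff (l : ℕ) =
        (if hl : (l : ℕ) = 0 then 0 else g ⟨(l : ℕ) - 1, by omega⟩) -
          α * (if hl : (l : ℕ) < n + 1 then g ⟨l, hl⟩ else 0) := by
    intro g l
    rw [sub_mul, Polynomial.coeff_sub, Polynomial.coeff_C_mul]
    congr 1
    · split_ifs with hl
      · rw [hl, Polynomial.coeff_X_mul_zero]
      · obtain ⟨m, hm⟩ := Nat.exists_eq_succ_of_ne_zero hl
        have h1 : (l : ℕ) - 1 < n + 1 := by omega
        have h2 : (pol g).coeff ((l : ℕ) - 1) = g ⟨(l : ℕ) - 1, h1⟩ := coeff_pol_lt _ h1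
        rw [← h2]
        have h3 : (l : ℕ) = ((l : ℕ) - 1) + 1 := by omega
        conv_lhs => rw [h3]
        rw [Polynomial.coeff_X_mul]
    · congr 1
      split_ifs with hl
      · exact coeff_pol_lt _ hl
      · exact coeff_pol_ge _ (by omega)
  refine ⟨fun z l => ((Polynomial.X - Polynomial.C α) * pol (g z)).coeff (l : ℕ), ?_, ?_, ?_⟩
  · rw [differentiableOn_pi]
    intro l
    simp only [hlin]
    rw [differentiableOn_pi] at hg1
    refine DifferentiableOn.sub ?_ (DifferentiableOn.const_mul ?_ α)
    · split_ifs with hl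
      · exact differentiableOn_const 0
      · exact hg1 _
    · split_ifs with hl
      · exact hg1 _
      · exact differentiableOn_const 0
  · intro z hz h1
    have h2 : (Polynomial.X - Polynomial.C α) * pol (g z) ≠ 0 :=
      mul_ne_zero (Polynomial.X_sub_C_ne_zero α) (pol_ne (hg2 z hz))
    apply h2
    have h3 : ((Polynomial.X - Polynomial.C α) * pol (g z)).natDegree ≤ n + 1 := by
      refine Polynomial.natDegree_mul_le.trans ?_
      rw [Polynomial.natDegree_X_sub_C]
      have := natDegree_pol_le (g z)
      omega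
    rw [← pol_coeff h3]
    have h4 : (fun l : Fin (n + 1 + 1) =>
        ((Polynomial.X - Polynomial.C α) * pol (g z)).coeff (l : ℕ)) = 0 := h1
    rw [h4]
    unfold pol
    simp
  · intro z hz
    obtain ⟨t, ht⟩ := hg3 z hz
    replace ht : dv α (h z) = t • g z := ht
    refine ⟨t, ?_⟩
    funext l
    rw [Pi.smul_apply, smul_eq_mul, coeff_mul_dv (h0 z (mem_disc.1 hz)) l, ht, pol_smul]
    rw [show (Polynomial.X - Polynomial.C α) * (Polynomial.C t * pol (g z)) =
      Polynomial.C t * ((Polynomial.X - Polynomial.C α) * pol (g z)) by ring,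
      Polynomial.coeff_C_mul]

/-- **Picard's theorem** for the complete intersections. -/
theorem disc_ci : ∀ (c n : ℕ) (d : Fin c → ℕ) (a : (j : Fin c) → Fin (d j) → ℂ) (κ : Fin c → ℂ),
    Num n c d → (Function.Injective fun t : Σ j, Fin (d j) => a t.1 t.2) → (∀ j, κ j ≠ 0) →
    ∀ (w : ℂ → Fin c → ℂ) (h : ℂ → Fin (n + 1) → ℂ),
    (∀ j, AnalyticOnNhd ℂ (fun z => w z j) (PB 1)) →
    (∀ l, AnalyticOnNhd ℂ (fun z => h z l) (PB 1)) → (∀ z ∈ PB 1, h z ≠ 0) →
    (∀ z ∈ PB 1, OnCI a κ (w z) (h z)) → (∃ z ∈ PB 1, ∃ j, w z j ≠ 0) → Extends h := by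
  intro c
  induction c with
  | zero =>
    rintro n d a κ - - - w h - - - - ⟨z, -, j, -⟩
    exact j.elim0
  | succ c ih =>
    intro n d a κ hnum ha hκ w h hw hh hh0 ho hne
    have hPBne : (PB 1).Nonempty := by
      obtain ⟨z, hz, -⟩ := hne
      exact ⟨z, hz⟩
    by_cases hall : ∀ j, ∃ z ∈ PB 1, w z j ≠ 0
    · -- a point where all do not vanish
      have h1 : ∃ z ∈ PB 1, ∀ j, w z j ≠ 0 := by
        by_contra hcon
        push Not at hcon
        obtain ⟨j, -, hj⟩ := prod_zero (PB_preconn one_pos) Finset.univ (fun j z => w z j)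
          (fun j _ => hw j) hPBne fun z hz => by
            obtain ⟨j, hj⟩ := hcon z hz
            exact Finset.prod_eq_zero (Finset.mem_univ j) hj
        obtain ⟨z, hz, h2⟩ := hall j
        exact h2 (hj z hz)
      obtain ⟨z0, hz0, hz0w⟩ := h1
      have hd := hnum.pos
      have hb := bound_flat (n := n) hnum.pos (hnum.base (Nat.succ_pos c))
      have hQ : QDisc (cis n a κ) (emp _ n)
          (fun z => (Fin.append (w z) (h z) : Fin (c + 1 + (n + 1)) → ℂ)) h := by
        have h3 : ∀ i : Fin (c + 1 + (n + 1)), AnalyticOnNhd ℂ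
            (fun z => (Fin.append (w z) (h z) : Fin (c + 1 + (n + 1)) → ℂ) i) (PB 1) := by
          intro i
          refine Fin.addCases (fun j => ?_) (fun l => ?_) i
          · simp only [Fin.append_left]
            exact hw j
          · simp only [Fin.append_right]
            exact hh l
        refine ⟨?_, ?_, ?_⟩
        · refine differentiableOn_pi.2 fun i z hz => ?_
          exact ((h3 i) z (mem_disc.1 hz)).differentiableAt.differentiableWithinAt
        · refine differentiableOn_pi.2 fun i z hz => ?_
          exact ((hh i) z (mem_disc.1 hz)).differentiableAt.differentiableWithinAt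
        · intro z hz
          have hz' := mem_disc.1 hz
          refine ⟨⟨?_, hh0 z hz', ?_⟩, emp_mem⟩
          · intro h4
            apply hh0 z hz'
            funext l
            have h5 := congrFun h4 (Fin.natAdd (c + 1) l)
            rw [Fin.append_right] at h5
            exact h5
          · rintro G (⟨i, j, rfl⟩ | ⟨j, rfl⟩)
            · rw [map_sub, map_mul, map_mul, aeval_X, aeval_X, aeval_X, aeval_X, Sum.elim_inl,
                Sum.elim_inl, Sum.elim_inr, Sum.elim_inr]
              erw [Fin.append_right, Fin.append_right]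
              ring
            · unfold ciEq
              rw [map_sub, map_pow, aeval_X, Sum.elim_inl, map_mul, aeval_C, map_prod]
              erw [Fin.append_left]
              rw [ho z hz' j, sub_eq_zero]
              congr 1
              refine Finset.prod_congr rfl fun i _ => ?_
              rw [eval_pol_eq]
              unfold lf
              rw [map_sum]
              refine Finset.sum_congr rfl fun l _ => ?_
              rw [map_mul, aeval_C, aeval_X, Sum.elim_inl]
              erw [Fin.append_right]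
      refine Pool.Agent.Y190.SC.disc_extends Pool.Agent.Y618.SA.s_an (nodes_inj (d := d) ha) hb
        (ci_sum hd a hκ (emp _ n)) hQ hz0 fun t => ?_
      have h2 := eval_ne (ho z0 hz0) (hz0w (ix d t).1) (ix d t).2
      rw [eval_pol_eq] at h2
      have h3 : aeval (h z0) (lfP n (nodes d a t)) ≠ 0 := by
        rw [aeval_lfP]
        exact h2
      exact h3
    · push Not at hall
      obtain ⟨j0, hj0⟩ := hall
      have hev : ∀ β : ℂ, AnalyticOnNhd ℂ (fun z => (pol (h z)).eval β) (PB 1) := by
        intro β
        have : (fun z => (pol (h z)).eval β) = fun z =>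
            ∑ l : Fin (n + 1), h z l * β ^ (l : ℕ) := by
          funext z
          unfold pol
          rw [Polynomial.eval_finsetSum]
          refine Finset.sum_congr rfl fun l _ => ?_
          rw [Polynomial.eval_mul, Polynomial.eval_C, Polynomial.eval_pow, Polynomial.eval_X]
        rw [this]
        exact Finset.analyticOnNhd_fun_sum _ fun l _ => (hh l).mul analyticOnNhd_const
      obtain ⟨i0, -, hi0⟩ := prod_zero (PB_preconn one_pos) Finset.univ
        (fun i z => (pol (h z)).eval (a j0 i)) (fun i _ => hev _) hPBne fun z hz => by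
          have h1 := ho z hz j0
          rw [hj0 z hz, zero_pow (hnum.pos j0).ne'] at h1
          exact (mul_eq_zero.1 h1.symm).resolve_left (hκ j0)
      cases n with
      | zero =>
        exfalso
        obtain ⟨z, hz⟩ := hPBne
        apply hh0 z hz
        have h4 : (pol (h z)).eval (a j0 i0) = h z 0 := by
          unfold pol
          simp
        funext l
        have h5 : l = 0 := Fin.ext (by omega)
        rw [h5, ← h4, hi0 z hz]
        rfl
      | succ n =>
        obtain ⟨z1, hz1, j1, hj1⟩ := hne
        have hne : j1 ≠ j0 := by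
          rintro rfl
          exact hj1 (hj0 z1 hz1)
        obtain ⟨i1, hi1⟩ := Fin.exists_succAbove_eq hne
        refine extends_mul hi0 (ih n _ _ _ (hnum.step j0) ?_ ?_ (fun z i => w z (j0.succAbove i)) _
          (fun j => hw _) (fun l => dv_an hh _ l) (fun z hz => dv_ne (hi0 z hz) (hh0 z hz))
          (fun z hz => (ho z hz).step j0 i0 (hi0 z hz)) ⟨z1, hz1, i1, ?_⟩)
        · rintro ⟨i, s⟩ ⟨i', s'⟩ hs
          have h4 := @ha ⟨j0.succAbove i, s⟩ ⟨j0.succAbove i', s'⟩ hs
          rw [Sigma.mk.injEq] at h4
          obtain ⟨h5, h6⟩ := h4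
          have h7 := j0.succAbove_right_injective h5
          subst h7
          rw [heq_eq_eq] at h6
          rw [h6]
        · intro i
          refine mul_ne_zero (hκ _) (Finset.prod_ne_zero_iff.2 fun s _ => sub_ne_zero.2 ?_)
          intro h4
          have h5 := @ha ⟨j0.succAbove i, s⟩ ⟨j0, i0⟩ h4
          rw [Sigma.mk.injEq] at h5
          exact j0.succAbove_ne i h5.1
        · rw [hi1]
          exact hj1

end Pool.Agent.Y190.CI
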