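import Pool.Agent.Y190.CI.Over
import Pool.Agent.Y190.PH.Tor

/-!
Notions of hyperbolicity for the closed subsets of the complete intersections.
-/

set_option autoImplicit false

open MvPolynomial Metric Filter Topology Set

namespace Pool.Agent.Y190.CI

open Pool.Agent.W602.Cov.R Pool.Agent.W603.BP Pool.Agent.W603.CX
open Pool.Agent.W601.PH Pool.Agent.W602.GT Pool.Agent.Y216 Pool.Agent.Y216.LG
open Pool.Agent.Y190.SC Pool.Agent.Y190.BV Pool.Agent.Y190.AN Pool.Agent.Y190.PH
open Pool.Agent.H159R3.GGLLog Pool.Agent.H159R3.NV Pool.Agent.TH182.TC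

theorem num_of {n c D : ℕ} {d : Fin c → ℕ} (hD : ∀ j, D ≤ d j) (h1 : n * (c + 2) < c * D)
    (h2 : 3 * (n + 1) < D + 3 * c) : Num n c d := by
  intro J hJ
  have hm : 1 ≤ J.card := Finset.card_pos.2 hJ
  have hmc : J.card ≤ c := by
    have := Finset.card_le_univ J
    rwa [Fintype.card_fin] at this
  have h3 : J.card * D ≤ ∑ j ∈ J, d j := by
    rw [← smul_eq_mul, ← Finset.sum_const]
    exact Finset.sum_le_sum fun j _ => hD j
  refine lt_of_lt_of_le ?_ h3
  generalize J.card = m at *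
  have hD0 : 0 < D := by
    rcases Nat.eq_zero_or_pos D with h | h
    · rw [h, mul_zero] at h1
      omega
    · exact h
  rcases Nat.lt_or_ge c (n + m) with h4 | h4
  · obtain ⟨x, hx⟩ : ∃ x : ℕ, n + m = c + x := ⟨n + m - c, by omega⟩
    have hx' : n + m - c = x := by omega
    rw [hx']
    zify at *
    have hn : (n : ℤ) = c + x - m := by linarith
    have e1 : ((c : ℤ) - 1) * (m * D - x * (m + 2)) = (c - m) * (1 * D - (x - m + 1) * (1 + 2)) +
        (m - 1) * (c * D - (x - m + c) * (c + 2)) + (c - 1) * ((m - 1) * (c - m)) := by ring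
    have e2 : (0 : ℤ) < 1 * D - (x - m + 1) * (1 + 2) := by
      rw [hn] at h2
      linarith
    have e3 : (0 : ℤ) < c * D - (x - m + c) * (c + 2) := by
      rw [hn] at h1
      linarith
    rcases eq_or_lt_of_le (show (1 : ℤ) ≤ c by omega) with hc | hc
    · have : (m : ℤ) = 1 := by omega
      rw [this] at e2 ⊢
      linarith
    · have hc1 : (0 : ℤ) < (c : ℤ) - 1 := by linarith
      have e4 : 0 < ((c : ℤ) - 1) * (m * D - x * (m + 2)) := by
        rw [e1]
        have h5 : (0 : ℤ) ≤ (c : ℤ) - m := by omega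
        have h6 : (0 : ℤ) ≤ (m : ℤ) - 1 := by omega
        have h7 : (0 : ℤ) < ((c : ℤ) - m) + (m - 1) := by linarith
        rcases eq_or_lt_of_le h5 with h8 | h8
        · have h9 : (0 : ℤ) < (m : ℤ) - 1 := by linarith
          have := mul_pos h9 e3
          rw [← h8]
          nlinarith
        · have h9 := mul_pos h8 e2
          have h10 := mul_nonneg h6 e3.le
          have h11 := mul_nonneg hc1.le (mul_nonneg h6 h5)
          linarith
      have := (mul_pos_iff_of_pos_left hc1).1 e4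
      linarith
  · have : n + m - c = 0 := by omega
    rw [this, zero_mul]
    exact Nat.mul_pos (by omega) hD0

section sets

variable {k : Type} [Field k] {N : ℕ} {ι : Type} {F : ι → MvPolynomial (Fin (N + 1)) k}

theorem val_one {K : Type} [Field K] [Algebra k K] (x : Fin (N + 1) → K) :
    val x (1 : MvPolynomial (Fin (N + 1)) k) = 1 := by
  unfold val
  rw [map_one]

theorem isForm_one : IsForm (1 : MvPolynomial (Fin (N + 1)) k) := ⟨0, isHomogeneous_one _ _⟩

theorem line_mem {p q : Fin (N + 1) → k} (h : Line F p q) : p ∈ SpLine F := by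
  have h1 : ∀ G : MvPolynomial (Fin (N + 1)) k, val (1 • p + (0 : k) • q) G = val p G := by
    intro G
    rw [one_smul, zero_smul, add_zero]
  refine ⟨⟨?_, fun e => ?_⟩, fun G _ hG => ?_⟩
  · rintro rfl
    have := (LinearIndependent.pair_iff.1 h.1 1 0 (by simp)).1
    exact one_ne_zero this
  · have := h.2 1 0 e
    rwa [one_smul, zero_smul, add_zero] at this
  · have := hG p q h 1 0
    rwa [one_smul, zero_smul, add_zero] at this

theorem spLine_empty_iff : SpLine F = ∅ ↔ ∀ p q, ¬ Line F p q := by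
  constructor
  · intro h p q hpq
    have := line_mem hpq
    rw [h] at this
    exact this
  · intro h
    rw [Set.eq_empty_iff_forall_notMem]
    rintro x ⟨-, hx⟩
    have h1 := hx 1 isForm_one fun p q hpq => absurd hpq (h p q)
    rw [val_one] at h1
    exact one_ne_zero h1

theorem spGm_empty_iff : SpGm F = ∅ ↔ ∀ P, ¬ GmCurve F P := by
  constructor
  · intro h P hP
    have h1 : (fun i => (P i).eval 1) ∈ SpGm F :=
      ⟨⟨hP.ne 1 one_ne_zero, hP.mem 1 one_ne_zero⟩, fun G _ hG => hG P hP 1 one_ne_zero⟩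
    rw [h] at h1
    exact h1
  · intro h
    rw [Set.eq_empty_iff_forall_notMem]
    rintro x ⟨-, hx⟩
    have h1 := hx 1 isForm_one fun P hP => absurd hP (h P)
    rw [val_one] at h1
    exact one_ne_zero h1

theorem spAlg_empty_iff [IsAlgClosed k] : SpAlg F = ∅ ↔ AllGeneralType F := by
  constructor
  · intro h K _ _ w y hw hy
    by_contra hgt
    obtain ⟨i, hi⟩ := Function.ne_iff.1 hy.ne
    obtain ⟨x, hx, hx0⟩ := specialise y (MvPolynomial.X i : MvPolynomial (Fin (N + 1)) k) (by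
      rw [aeval_X]
      exact hi)
    rw [aeval_X] at hx
    have h1 : x ∈ SpAlg F := ⟨⟨fun h0 => hx (congrFun h0 i), fun e => hx0 _ (hy.mem e)⟩,
      fun G _ hG => hx0 _ (hG K w y hw hy hgt)⟩
    rw [h] at h1
    exact h1
  · intro h
    rw [Set.eq_empty_iff_forall_notMem]
    rintro x ⟨-, hx⟩
    have h1 := hx 1 isForm_one fun K _ _ w y hw hy hgt => absurd (h K w y hw hy) hgt
    rw [val_one] at h1
    exact one_ne_zero h1

end sets

section cplx

variable {N : ℕ} {ι : Type} {F : ι → MvPolynomial (Fin (N + 1)) ℂ}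

/-- Every holomorphic map from the punctured disc to `X = {F = 0}` extends to the disc. -/
def Picard (F : ι → MvPolynomial (Fin (N + 1)) ℂ) : Prop :=
  ∀ f : ℂ → Fin (N + 1) → ℂ, DifferentiableOn ℂ f (ball 0 1 \ {0}) →
    (∀ z ∈ ball (0 : ℂ) 1 \ {0}, f z ≠ 0 ∧ ∀ i, eval (f z) (F i) = 0) → Extends f

theorem spP_empty_iff : SpP ∅ F = ∅ ↔ Picard F := by
  constructor
  · intro h f hf hfF
    by_contra hE
    have hc : PCurve ∅ F f := ⟨hf, fun z hz => ⟨(hfF z hz).1,
      fun j hj => absurd hj (Set.notMem_empty j), (hfF z hz).2⟩⟩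
    have hz : (1 / 2 : ℂ) ∈ ball (0 : ℂ) 1 \ {0} := mem_disc.2 ⟨by norm_num, by
      rw [norm_div, norm_one]
      norm_num⟩
    have h1 : f (1 / 2) ∈ SpP ∅ F := ⟨hc.2 _ hz, fun G _ hG => hG f hc hE _ hz⟩
    rw [h] at h1
    exact h1
  · intro h
    rw [Set.eq_empty_iff_forall_notMem]
    rintro x ⟨-, hx⟩
    have h1 := hx 1 isForm_one fun f hf hE => absurd (h f hf.1 fun z hz =>
      ⟨(hf.2 z hz).1, (hf.2 z hz).2.2⟩) hE
    rw [map_one] at h1
    exact one_ne_zero h1

theorem spH_empty_iff : SpH ∅ F = ∅ ↔ Brody F := by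
  constructor
  · intro h f hf hf0 hfF z w
    by_contra hcon
    push Not at hcon
    have hcurve : EntireCurve ∅ F f := ⟨hf, fun z => ⟨hf0 z,
      fun j hj => absurd hj (Set.notMem_empty j), fun e => hfF z e⟩, z, w, hcon⟩
    have h1 : f z ∈ SpH ∅ F := ⟨⟨hf0 z, fun j hj => absurd hj (Set.notMem_empty j), fun e =>
      hfF z e⟩, fun G _ hG' => hG' f hcurve z⟩
    rw [h] at h1
    exact h1
  · intro h
    rw [Set.eq_empty_iff_forall_notMem]
    rintro x ⟨-, hx⟩
    have h1 := hx 1 isForm_one fun f hf z => by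
      exfalso
      obtain ⟨h1, h2, z1, z2, h3⟩ := hf
      obtain ⟨s, hs⟩ := h f h1 (fun z => (h2 z).1) (fun z => (h2 z).2.2) z1 z2
      exact h3 s hs
    rw [map_one] at h1
    exact one_ne_zero h1

end cplx

section res

variable {k : Type} [Field k] [IsAlgClosed k] [CharZero k] {c n : ℕ} {d : Fin c → ℕ} {ι : Type}
  {F : ι → MvPolynomial (Fin (c + n + 1)) k} {a : (j : Fin c) → Fin (d j) → k}

/-- no lines if the codimension is at least the dimension -/
theorem spLine_empty_ci (hnc : n ≤ c) (hnum : Num n c d)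
    (ha : Function.Injective fun t : Σ j, Fin (d j) => a t.1 t.2) (hF : ∀ e, IsForm (F e))
    (hV : Cone F ⊆ CompInt n a) : SpLine F = ∅ := by
  rw [← (special_ci (by omega) hnum ha hF hV).1, spAlg_empty_iff]
  intro K _ _ t y ht hy
  by_contra hgt
  have := (ngt_line (by omega) hnum ha hF hV ht hy hgt).1
  omega

theorem alg_tfae (hnc : n ≤ c + 1) (hnum : Num n c d)
    (ha : Function.Injective fun t : Σ j, Fin (d j) => a t.1 t.2) (hF : ∀ e, IsForm (F e))
    (hV : Cone F ⊆ CompInt n a) :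
    [AllGeneralType F, ∀ P, ¬ GmCurve F P, ∀ p q, ¬ Line F p q].TFAE := by
  obtain ⟨h1, h2⟩ := special_ci hnc hnum ha hF hV
  tfae_have 1 ↔ 3 := by rw [← spAlg_empty_iff, ← spLine_empty_iff, h1]
  tfae_have 2 ↔ 3 := by rw [← spGm_empty_iff, ← spLine_empty_iff, h2]
  tfae_finish

end res

section resC

variable {c n : ℕ} {d : Fin c → ℕ} {ι : Type}
  {F : ι → MvPolynomial (Fin (c + n + 1)) ℂ} {a : (j : Fin c) → Fin (d j) → ℂ}

/-- **Notions of hyperbolicity.** -/
theorem hyp_ci (hnc : n ≤ c + 1) (hnum : Num n c d)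
    (ha : Function.Injective fun t : Σ j, Fin (d j) => a t.1 t.2) (hF : ∀ e, IsForm (F e))
    (hV : Cone F ⊆ CompInt n a) :
    [Brody F, Picard F, AllGeneralType F, ∀ P, ¬ GmCurve F P, NoLines F].TFAE := by
  obtain ⟨h1, h2, h3, h4, h5⟩ := special_all hnc hnum ha hF hV
  tfae_have 1 ↔ 5 := by
    rw [← spH_empty_iff, h3, spLine_empty_iff]
    rfl
  tfae_have 2 ↔ 5 := by
    rw [← spP_empty_iff, h2, spLine_empty_iff]
    rfl
  tfae_have 3 ↔ 5 := by
    rw [← spAlg_empty_iff, h1, spLine_empty_iff]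
    rfl
  tfae_have 4 ↔ 5 := by
    rw [← spGm_empty_iff, h5, spLine_empty_iff]
    rfl
  tfae_finish

end resC

end Pool.Agent.Y190.CI
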