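import Pool.Agent.Y190.CI.Pic

/-!
The special sets of the complete intersections themselves, of any codimension.
-/

set_option autoImplicit false

open MvPolynomial Metric Filter Topology Set

namespace Pool.Agent.Y190.CI

open Pool.Agent.W602.Cov.R Pool.Agent.W603.BP
open Pool.Agent.W601.PH Pool.Agent.W602.GT Pool.Agent.Y216 Pool.Agent.Y216.LG
open Pool.Agent.Y190.SC Pool.Agent.Y190.BV Pool.Agent.Y190.AN
open Pool.Agent.H159R3.GGLLog Pool.Agent.H159R3.NV

section alg

variable {k : Type} [Field k] {c n : ℕ} {d : Fin c → ℕ} {ι : Type}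
  {F : ι → MvPolynomial (Fin (c + n + 1)) k} {a : (j : Fin c) → Fin (d j) → k}

/-- points whose polynomial has the given roots -/
theorem pt_mem (hd : ∀ j, 0 < d j) (i : (j : Fin c) → Fin (d j)) {A : Polynomial k}
    (hA : A.natDegree ≤ n) (hdvd : BB a i ∣ A) (h0 : pt c n (fun l => A.coeff l) ≠ 0) :
    pt c n (fun l => A.coeff l) ∈ CompInt n a := by
  rw [← cone_eqF]
  refine ⟨h0, fun j => ?_⟩
  rw [val_eqF]
  have h1 : wp (pt c n (fun l => A.coeff l)) = (0 : Fin c → k) := by
    funext j
    exact pt_left _ j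
  have h2 : pol (hp (pt c n (fun l => A.coeff l)) : Fin (n + 1) → k) = A := by
    have h3 : (hp (pt c n (fun l => A.coeff l)) : Fin (n + 1) → k) =
        fun l : Fin (n + 1) => A.coeff (l : ℕ) := by
      funext l
      exact pt_right _ l
    rw [h3]
    exact pol_coeff hA
  rw [h1, h2, Pi.zero_apply, zero_pow (hd j).ne', zero_sub, neg_eq_zero]
  refine Finset.prod_eq_zero (Finset.mem_univ (i j)) ?_
  obtain ⟨R, rfl⟩ := hdvd
  rw [Polynomial.eval_mul]
  unfold BB
  rw [Polynomial.eval_prod, Finset.prod_eq_zero (Finset.mem_univ j), zero_mul]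
  rw [Polynomial.eval_sub, Polynomial.eval_X, Polynomial.eval_C, Algebra.algebraMap_self,
    RingHom.id_apply, sub_self]

/-- the points with `w = 0` lie on lines, if the codimension is less than the dimension -/
theorem line_through [IsAlgClosed k] (hcn : c < n) (hd : ∀ j, 0 < d j)
    (ha : Function.Injective fun t : Σ j, Fin (d j) => a t.1 t.2) (hF : ∀ e, IsForm (F e))
    (hX : Cone F = CompInt n a) {x : Fin (c + n + 1) → k} (hx : x ∈ Cone F) (hw : wp x = 0) :
    ∃ q, Line F x q := by
  have ho := onCI_of hX.subset hx.1 hx.2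
  have hh := hp_ne hd hx.1 ho
  obtain ⟨i, H1, hH1⟩ := vanish_div hd ha (fun _ => one_ne_zero) ho hw
  rw [Algebra.algebraMap_self, Polynomial.map_id] at hH1
  set B := BB a i with hB
  have hB0 : B ≠ 0 := BB_ne a i
  have hH : pol (hp x) ≠ 0 := Pool.Agent.Y216.LG.pol_ne hh
  have hH10 : H1 ≠ 0 := by
    rintro rfl
    rw [mul_zero] at hH1
    exact hH hH1
  have hdeg := natDegree_pol_le (hp x)
  -- a second polynomial
  obtain ⟨R, hR, hRi⟩ : ∃ R : Polynomial k, R.natDegree ≤ 1 ∧
      ∀ s t : k, Polynomial.C s * H1 + Polynomial.C t * R = 0 → s = 0 ∧ t = 0 := by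
    by_cases h1 : H1.natDegree = 0
    · refine ⟨Polynomial.X, Polynomial.natDegree_X_le, fun s t hst => ?_⟩
      obtain ⟨r, hr⟩ : ∃ r, H1 = Polynomial.C r := ⟨_, Polynomial.eq_C_of_natDegree_eq_zero h1⟩
      have hr0 : r ≠ 0 := by
        rintro rfl
        rw [Polynomial.C_0] at hr
        exact hH10 hr
      rw [hr] at hst
      have h3 := congrArg (fun f : Polynomial k => f.coeff 0) hst
      have h4 := congrArg (fun f : Polynomial k => f.coeff 1) hst
      simp [hr0] at h3 h4
      exact ⟨h3, h4⟩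
    · refine ⟨1, by rw [Polynomial.natDegree_one]; omega, fun s t hst => ?_⟩
      have h4 := congrArg (fun f : Polynomial k => f.coeff H1.natDegree) hst
      simp only [Polynomial.coeff_add, Polynomial.coeff_C_mul, Polynomial.coeff_zero,
        Polynomial.coeff_one] at h4
      rw [if_neg h1, mul_zero, add_zero] at h4
      have h5 := (mul_eq_zero.1 h4).resolve_right
        (by
          rw [Polynomial.coeff_natDegree]
          exact Polynomial.leadingCoeff_ne_zero.2 hH10)
      refine ⟨h5, ?_⟩
      rw [h5, Polynomial.C_0, zero_mul, zero_add, mul_one, Polynomial.C_eq_zero] at hst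
      exact hst
  have hBR : (B * R).natDegree ≤ n := by
    refine Polynomial.natDegree_mul_le.trans ?_
    rw [hB, BB_deg]
    omega
  have hxe : x = pt c n (fun l => (B * H1).coeff l) := by
    funext l
    refine Fin.addCases (m := c) (n := n + 1) (fun j => ?_) (fun l => ?_) l
    · erw [pt_left]
      exact congrFun hw j
    · erw [pt_right]
      rw [← hH1]
      exact (coeff_pol (hp x) l).symm
  have hcomb : ∀ s t : k, s • x + t • pt c n (fun l => (B * R).coeff l) =
      pt c n (fun l => (B * (Polynomial.C s * H1 + Polynomial.C t * R)).coeff l) := by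
    intro s t
    conv_lhs => rw [hxe]
    have e : B * (Polynomial.C s * H1 + Polynomial.C t * R) =
        Polynomial.C s * (B * H1) + Polynomial.C t * (B * R) := by ring
    funext l
    refine Fin.addCases (m := c) (n := n + 1) (fun j => ?_) (fun l => ?_) l
    · rw [Pi.add_apply, Pi.smul_apply, Pi.smul_apply]
      erw [pt_left, pt_left, pt_left]
      rw [smul_zero, smul_zero, add_zero]
    · rw [Pi.add_apply, Pi.smul_apply, Pi.smul_apply]
      erw [pt_right, pt_right, pt_right]
      rw [e, Polynomial.coeff_add, Polynomial.coeff_C_mul, Polynomial.coeff_C_mul, smul_eq_mul,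
        smul_eq_mul]
  have hdegc : ∀ s t : k, (B * (Polynomial.C s * H1 + Polynomial.C t * R)).natDegree ≤ n := by
    intro s t
    have e : B * (Polynomial.C s * H1 + Polynomial.C t * R) =
        Polynomial.C s * (B * H1) + Polynomial.C t * (B * R) := by ring
    rw [e]
    refine (Polynomial.natDegree_add_le _ _).trans (max_le ?_ ?_)
    · refine (Polynomial.natDegree_C_mul_le _ _).trans ?_
      rw [← hH1]
      exact hdeg
    · exact (Polynomial.natDegree_C_mul_le _ _).trans hBR
  have hne : ∀ s t : k, s • x + t • pt c n (fun l => (B * R).coeff l) = 0 → s = 0 ∧ t = 0 := by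
    intro s t hst
    rw [hcomb] at hst
    apply hRi
    by_contra hne
    apply mul_ne_zero hB0 hne
    rw [← pol_coeff (hdegc s t)]
    have h1 : (fun l : Fin (n + 1) => (B * (Polynomial.C s * H1 + Polynomial.C t * R)).coeff
        (l : ℕ)) = 0 := by
      funext l
      have h2 := congrFun hst (Fin.natAdd c l)
      erw [pt_right] at h2
      exact h2
    rw [h1]
    unfold pol
    simp
  refine ⟨pt c n (fun l => (B * R).coeff l), LinearIndependent.pair_iff.2 hne, fun s t e => ?_⟩
  by_cases h0 : s • x + t • pt c n (fun l => (B * R).coeff l) = 0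
  · obtain ⟨D, hD⟩ := hF e
    obtain ⟨rfl, rfl⟩ := hne s t h0
    have h1 : (0 : k) • x + (0 : k) • pt c n (fun l => (B * R).coeff l) = fun i => 0 * x i := by
      funext i
      simp
    rw [h1, val_smul hD, hx.2 e, mul_zero]
  · have h1 : s • x + t • pt c n (fun l => (B * R).coeff l) ∈ Cone F := by
      rw [hX, hcomb]
      rw [hcomb] at h0
      exact pt_mem hd i (hdegc s t) (Dvd.intro _ rfl) h0
    exact h1.2 e

/-- **Special sets** of the complete intersections. -/
theorem special_fullA [IsAlgClosed k] [CharZero k] (hnum : Num n c d)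
    (ha : Function.Injective fun t : Σ j, Fin (d j) => a t.1 t.2) (hF : ∀ e, IsForm (F e))
    (hX : Cone F = CompInt n a) : SpAlg F = SpLine F ∧ SpGm F = SpLine F ∧
      (c < n → SpLine F = {x | x ∈ Cone F ∧ wp x = 0}) := by
  have hinf : Infinite k := inferInstance
  have h0 : c < n → SpAlg F ⊆ {x | x ∈ Cone F ∧ wp x = 0} := by
    rintro - x ⟨hx, h⟩
    refine ⟨hx, ?_⟩
    funext j
    have h1 := h (X (Fin.castAdd (n + 1) j)) ⟨1, isHomogeneous_X _ _⟩ (by
      intro K _ _ t y ht hy hgt
      unfold val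
      rw [aeval_X]
      by_contra hne
      exact hgt (gt_sub hnum ha hX.subset ht hy fun h0 => hne (congrFun h0 j)))
    unfold val at h1
    rw [aeval_X] at h1
    exact h1
  have h00 : c < n → {x | x ∈ Cone F ∧ wp x = 0} ⊆ SpLine F := by
    rintro hcn x ⟨hx, hw⟩
    refine ⟨hx, fun G hG hL => ?_⟩
    obtain ⟨q, hq⟩ := line_through hcn hnum.pos ha hF hX hx hw
    have := hL x q hq 1 0
    rwa [one_smul, zero_smul, add_zero] at this
  have h1 : SpLine F ⊆ SpGm F := line_sub_gm _
  have h2 : SpGm F ⊆ SpAlg F := gm_sub_alg hF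
  have h3 : SpAlg F ⊆ SpLine F := by
    by_cases hcn : c < n
    · exact (h0 hcn).trans (h00 hcn)
    · exact (special_ci (by omega) hnum ha hF hX.subset).1.subset
  exact ⟨Set.Subset.antisymm h3 (h1.trans h2), Set.Subset.antisymm (h2.trans h3) h1, fun hcn =>
    Set.Subset.antisymm ((h1.trans h2).trans (h0 hcn)) (h00 hcn)⟩

end alg

variable {c n : ℕ} {d : Fin c → ℕ} {ι : Type}
  {F : ι → MvPolynomial (Fin (c + n + 1)) ℂ} {a : (j : Fin c) → Fin (d j) → ℂ}

/-- **Picard** for closed subsets of the complete intersections of any codimension: holomorphic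
maps from the punctured disc with an essential singularity lie in `w = 0`. -/
theorem pic_w (hnum : Num n c d)
    (ha : Function.Injective fun t : Σ j, Fin (d j) => a t.1 t.2)
    (hV : Cone F ⊆ CompInt n a) {f : ℂ → Fin (c + n + 1) → ℂ} (hf : PCurve ∅ F f)
    (hE : ¬ Extends f) : ∀ z ∈ PB 1, wp (f z) = 0 := by
  have hfa : ∀ i, AnalyticOnNhd ℂ (fun z => f z i) (PB 1) := fun i => hf.an i
  have hcone : ∀ z ∈ PB 1, f z ≠ 0 ∧ ∀ e, val (f z) (F e) = 0 := by
    intro z hz
    have h1 := hf.2 z (mem_disc.2 hz)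
    rw [pts_eq] at h1
    exact h1
  have ho : ∀ z ∈ PB 1, OnCI a (fun _ => 1) (wp (f z)) (hp (f z)) := fun z hz =>
    onCI_of hV (hcone z hz).1 (hcone z hz).2
  have hh : ∀ z ∈ PB 1, hp (f z) ≠ 0 := fun z hz => hp_ne hnum.pos (hcone z hz).1 (ho z hz)
  by_contra hcon
  push Not at hcon
  obtain ⟨z0, hz0, hne⟩ := hcon
  obtain ⟨j, hj⟩ := Function.ne_iff.1 hne
  apply hE
  have hEh : Extends fun z => hp (f z) := disc_ci c n d a (fun _ => 1) hnum ha
    (fun _ => one_ne_zero) (fun z => wp (f z)) (fun z => hp (f z)) (fun j => hfa _)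
    (fun l => hfa _) hh ho ⟨z0, hz0, j, hj⟩
  exact extends_lift (X := Pool.Agent.TH152.HY.conv (cis n a (fun _ => 1))) hfa
    (fun z hz => cis_mem (hh z hz) (ho z hz)) hEh hz0
    ((ci_finite hnum.pos a (fun _ => 1)).fib (hh z0 hz0))

/-- **All special sets agree.** -/
theorem special_full (hnum : Num n c d)
    (ha : Function.Injective fun t : Σ j, Fin (d j) => a t.1 t.2) (hF : ∀ e, IsForm (F e))
    (hX : Cone F = CompInt n a) :
    SpAlg F = SpLine F ∧ SpP ∅ F = SpLine F ∧ SpH ∅ F = SpLine F ∧ SpCg ∅ F = SpLine F ∧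
      SpGm F = SpLine F ∧ (c < n → SpLine F = {x | x ∈ Cone F ∧ wp x = 0}) := by
  obtain ⟨h1, h2, h7⟩ := special_fullA hnum ha hF hX
  have h3 : SpP ∅ F ⊆ SpLine F := by
    by_cases hcn : c < n
    · rintro x ⟨hx, h⟩
      rw [pts_eq] at hx
      refine ⟨hx, fun G hG hL => ?_⟩
      rw [val_eq]
      refine h G hG fun f hf hE z hz => ?_
      have hw := pic_w hnum ha hX.subset hf hE z (mem_disc.1 hz)
      have hfz : f z ∈ Cone F := by
        rw [← pts_eq]
        exact hf.2 z hz
      obtain ⟨q, hq⟩ := line_through hcn hnum.pos ha hF hX hfz hw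
      have := hL (f z) q hq 1 0
      rwa [one_smul, zero_smul, add_zero, val_eq] at this
    · exact (special_all (by omega) hnum ha hF hX.subset).2.1.subset
  have h4 := spH_sub ∅ F
  have h5 := gm_sub_h F
  rw [h2] at h5
  have h6 : SpH ∅ F = SpLine F := Set.Subset.antisymm (h4.trans h3) h5
  exact ⟨h1, Set.Subset.antisymm h3 (h5.trans h4), h6, by rw [spCg_eq, h6], h2, h7⟩

end Pool.Agent.Y190.CI
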