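import Pool.Agent.Y190.CI.Var

/-!
The subvarieties in `w = 0`, lines and special sets.
-/

set_option autoImplicit false

open Polynomial

namespace Pool.Agent.Y190.CI

open FF Pool.Agent.W602.GT Pool.Agent.Y190.BV Pool.Agent.Y190.SC Pool.Agent.Y216
open Pool.Agent.Y190.QP (line_all)

variable {k : Type} [Field k] {K : Type} [Field K] [Algebra k K] {c n : ℕ} {d : Fin c → ℕ}

theorem aeval_two {N : ℕ} (P : Fin (N + 1) → k[X]) (G : MvPolynomial (Fin (N + 1)) k) (τ : K) :
    aeval τ (MvPolynomial.aeval P G) = val (fun i => aeval τ (P i)) G := by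
  unfold val
  have h1 : (Polynomial.aeval τ : k[X] →ₐ[k] K).comp (MvPolynomial.aeval P) =
      MvPolynomial.aeval fun i => aeval τ (P i) := by
    apply MvPolynomial.algHom_ext
    intro i
    simp
  rw [← h1]
  rfl

/-- a form which vanishes at a generic point of a line vanishes on the line -/
theorem gen_line [Infinite k] {N : ℕ} {G : MvPolynomial (Fin (N + 1)) k} (hG : IsForm G)
    {p q : Fin (N + 1) → k} {u v : K} (hv : v ≠ 0) (htr : Transcendental k (u / v))
    (h : val (fun i => v * algebraMap k K (p i) + u * algebraMap k K (q i)) G = 0) (s t : k) :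
    val (s • p + t • q) G = 0 := by
  obtain ⟨D, hD⟩ := hG
  set P : Fin (N + 1) → k[X] := fun i => C (p i) + X * C (q i) with hP
  set Q := MvPolynomial.aeval P G with hQ
  have h1 : aeval (u / v) Q = 0 := by
    rw [hQ, aeval_two]
    have h2 : (fun i => v * algebraMap k K (p i) + u * algebraMap k K (q i)) =
        fun i => v * (aeval (u / v) (P i)) := by
      funext i
      simp only [hP, map_add, map_mul, aeval_C, aeval_X]
      field_simp
    rw [h2, val_smul hD] at h
    exact (mul_eq_zero.1 h).resolve_left (pow_ne_zero _ hv)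
  have hQ0 : Q = 0 := by
    by_contra hne
    exact htr ⟨Q, hne, h1⟩
  refine line_all (fun s t hs _ => ?_) s t
  have h2 := aeval_two P G (t / s)
  rw [← hQ, hQ0, map_zero] at h2
  have h3 : s • p + t • q = fun i => s * (aeval (t / s) (P i)) := by
    funext i
    simp only [hP, map_add, map_mul, aeval_C, aeval_X, Algebra.algebraMap_self, RingHom.id_apply,
      Pi.add_apply, Pi.smul_apply, smul_eq_mul]
    field_simp
  rw [h3, val_smul hD, ← h2, mul_zero]

/-- a form which vanishes on a line vanishes at the points over extensions -/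
theorem line_ext [Infinite k] {N : ℕ} {G : MvPolynomial (Fin (N + 1)) k} (hG : IsForm G)
    {p q : Fin (N + 1) → k} {u v : K} (hv : v ≠ 0) (h : ∀ s t : k, val (s • p + t • q) G = 0) :
    val (fun i => v * algebraMap k K (p i) + u * algebraMap k K (q i)) G = 0 := by
  obtain ⟨D, hD⟩ := hG
  set P : Fin (N + 1) → k[X] := fun i => C (p i) + X * C (q i) with hP
  set Q := MvPolynomial.aeval P G with hQ
  have hQ0 : Q = 0 := by
    refine Polynomial.funext fun τ => ?_
    have h2 := aeval_two P G τ
    rw [← hQ, coe_aeval_eq_eval] at h2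
    rw [h2, eval_zero]
    have h3 := h 1 τ
    rw [← h3]
    congr 1
    funext i
    simp only [hP, eval_add, eval_mul, eval_C, eval_X, Pi.add_apply, Pi.smul_apply, smul_eq_mul,
      one_mul]
  have h2 : (fun i => v * algebraMap k K (p i) + u * algebraMap k K (q i)) =
      fun i => v * (aeval (u / v) (P i)) := by
    funext i
    simp only [hP, map_add, map_mul, aeval_C, aeval_X]
    field_simp
  rw [h2, val_smul hD, ← aeval_two, ← hQ, hQ0, map_zero, mul_zero]

/-- the product of linear factors -/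
noncomputable def BB {k : Type} [Field k] {c : ℕ} {d : Fin c → ℕ} (a : (j : Fin c) → Fin (d j) → k)
    (i : (j : Fin c) → Fin (d j)) : k[X] := ∏ j, (X - C (a j (i j)))

theorem BB_ne (a : (j : Fin c) → Fin (d j) → k) (i : (j : Fin c) → Fin (d j)) : BB a i ≠ 0 :=
  Finset.prod_ne_zero_iff.2 fun _ _ => X_sub_C_ne_zero _

theorem BB_deg (a : (j : Fin c) → Fin (d j) → k) (i : (j : Fin c) → Fin (d j)) :
    (BB a i).natDegree = c := by
  unfold BB
  rw [natDegree_prod _ _ fun _ _ => X_sub_C_ne_zero _]
  simp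

/-- the factors of the polynomial of a point with `w = 0` -/
theorem vanish_div (hd : ∀ j, 0 < d j) {a : (j : Fin c) → Fin (d j) → k}
    (ha : Function.Injective fun t : Σ j, Fin (d j) => a t.1 t.2) {κ : Fin c → k}
    (hκ : ∀ j, κ j ≠ 0) {w : Fin c → K} {h : Fin (n + 1) → K} (ho : OnCI a κ w h) (hw : w = 0) :
    ∃ i : (j : Fin c) → Fin (d j), (BB a i).map (algebraMap k K) ∣ pol h := by
  have h1 : ∀ j, ∃ i : Fin (d j), (pol h).eval (algebraMap k K (a j i)) = 0 := by
    intro j
    have h1 := ho j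
    rw [hw, Pi.zero_apply, zero_pow (hd j).ne'] at h1
    have h2 := (mul_eq_zero.1 h1.symm).resolve_left ((_root_.map_ne_zero _).2 (hκ j))
    obtain ⟨i, -, h3⟩ := Finset.prod_eq_zero_iff.1 h2
    exact ⟨i, h3⟩
  choose i hi using h1
  refine ⟨i, ?_⟩
  unfold BB
  rw [Polynomial.map_prod]
  refine Finset.prod_dvd_of_coprime ?_ fun j _ => ?_
  · intro j _ j' _ hjj
    simp only [Function.onFun, Polynomial.map_sub, Polynomial.map_X, Polynomial.map_C]
    refine isCoprime_X_sub_C_of_isUnit_sub (IsUnit.mk0 _ ?_)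
    rw [← map_sub, _root_.map_ne_zero, sub_ne_zero]
    intro h2
    have h3 := @ha ⟨j, i j⟩ ⟨j', i j'⟩ h2
    rw [Sigma.mk.injEq] at h3
    exact hjj h3.1
  · simp only [Polynomial.map_sub, Polynomial.map_X, Polynomial.map_C]
    exact dvd_iff_isRoot.2 (hi j)

/-- the point with `w = 0` and a given polynomial -/
def pt {L : Type} [Zero L] (c n : ℕ) (f : ℕ → L) : Fin (c + n + 1) → L :=
  Fin.addCases (m := c) (n := n + 1) (fun _ => 0) fun l => f l

theorem pt_left {L : Type} [Zero L] (f : ℕ → L) (j : Fin c) :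
    pt c n f (Fin.castAdd (n + 1) j) = 0 := Fin.addCases_left _

theorem pt_right {L : Type} [Zero L] (f : ℕ → L) (l : Fin (n + 1)) :
    pt c n f (Fin.natAdd c l) = f l := Fin.addCases_right _

/-- functions which generate the constants only -/
theorem coords_const {N : ℕ} {y : Fin (N + 1) → K} {p : Fin (N + 1) → k} {u : K} (hu : u ≠ 0)
    (h : ∀ i, y i = u * algebraMap k K (p i)) : coords k y = ⊥ := by
  unfold coords
  rw [eq_bot_iff, IntermediateField.adjoin_le_iff]
  rintro _ ⟨i, j, hj, rfl⟩
  refine IntermediateField.mem_bot.2 ⟨p i / p j, ?_⟩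
  rw [h i, h j, map_div₀]
  rw [h j] at hj
  have := right_ne_zero_of_mul hj
  field_simp

theorem trdeg_bot {y : Fin (c + n + 1) → K} (hgen : coords k y = ⊤) (h : coords k y = ⊥) :
    Algebra.trdeg k K = 0 := by
  rw [h] at hgen
  have h1 : Algebra.IsAlgebraic k K := by
    constructor
    intro x
    have h2 : x ∈ (⊥ : IntermediateField k K) := by
      rw [hgen]
      exact IntermediateField.mem_top
    obtain ⟨z, hz⟩ := IntermediateField.mem_bot.1 h2
    rw [← hz]
    exact isAlgebraic_algebraMap z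
  exact _root_.trdeg_eq_zero_iff.2 h1

/-- **Lines**: the subvarieties in `w = 0` if `n ≤ c + 1`. -/
theorem line_struct [IsAlgClosed k] (hnc : n ≤ c + 1) (hd : ∀ j, 0 < d j)
    {a : (j : Fin c) → Fin (d j) → k} (ha : Function.Injective fun t : Σ j, Fin (d j) => a t.1 t.2)
    {y : Fin (c + n + 1) → K} (hy0 : y ≠ 0) (ho : OnCI a (fun _ => 1) (wp y) (hp y))
    (hw : wp y = 0) (htr : Algebra.trdeg k K ≠ 0) (hgen : coords k y = ⊤) :
    n = c + 1 ∧ ∃ (p q : Fin (c + n + 1) → k) (u v : K), v ≠ 0 ∧ Transcendental k (u / v) ∧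
      LinearIndependent k ![p, q] ∧
      y = fun i => v * algebraMap k K (p i) + u * algebraMap k K (q i) := by
  have hh := hp_ne hd hy0 ho
  obtain ⟨i, H1, hH1⟩ := vanish_div hd ha (fun _ => one_ne_zero) ho hw
  set B := BB a i with hB
  have hH : pol (hp y) ≠ 0 := Pool.Agent.Y216.LG.pol_ne hh
  have hH10 : H1 ≠ 0 := by
    rintro rfl
    rw [mul_zero] at hH1
    exact hH hH1
  have hBK : B.map (algebraMap k K) ≠ 0 :=
    (Polynomial.map_ne_zero_iff (algebraMap k K).injective).2 (BB_ne a i)
  have hdeg := natDegree_pol_le (hp y)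
  rw [hH1, natDegree_mul hBK hH10, natDegree_map, hB, BB_deg] at hdeg
  have hH1d : H1.natDegree ≤ 1 := by omega
  set v := H1.coeff 0 with hv
  set u := H1.coeff 1 with hu
  have hH1e : H1 = C v + C u * X := by
    rw [eq_X_add_C_of_natDegree_le_one hH1d, add_comm]
  have hyl : ∀ l : Fin (n + 1), y (Fin.natAdd c l) =
      v * algebraMap k K (B.coeff l) + u * algebraMap k K ((X * B).coeff l) := by
    intro l
    have h1 := coeff_pol (hp y) l
    rw [hH1, hH1e, mul_add, coeff_add, mul_comm _ (C v), coeff_C_mul, coeff_map,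
      show B.map (algebraMap k K) * (C u * X) = C u * (X * B).map (algebraMap k K) by
        rw [Polynomial.map_mul, map_X]; ring, coeff_C_mul, coeff_map] at h1
    exact h1.symm
  have hyj : ∀ j : Fin c, y (Fin.castAdd (n + 1) j) = 0 := fun j => congrFun hw j
  have hy : y = fun i => v * algebraMap k K (pt c n (fun l => B.coeff l) i) +
      u * algebraMap k K (pt c n (fun l => (X * B).coeff l) i) := by
    funext i
    refine Fin.addCases (m := c) (n := n + 1) (fun j => ?_) (fun l => ?_) i
    · rw [hyj]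
      erw [pt_left, pt_left]
      rw [map_zero, mul_zero, mul_zero, add_zero]
    · rw [hyl]
      erw [pt_right, pt_right]
  have hbot : coords k y ≠ ⊥ := fun h => htr (trdeg_bot hgen h)
  have hv0 : v ≠ 0 := by
    intro h0
    have hu0 : u ≠ 0 := by
      intro h1
      apply hH10
      rw [hH1e, h0, h1]
      simp
    refine hbot (coords_const hu0 (p := pt c n (fun l => (X * B).coeff l)) fun i => ?_)
    rw [congrFun hy i, h0, zero_mul, zero_add]
  have htr' : Transcendental k (u / v) := by
    intro halg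
    obtain ⟨s, hs⟩ := const_of_algebraic halg
    refine hbot (coords_const hv0 (p := pt c n (fun l => B.coeff l) +
      s • pt c n (fun l => (X * B).coeff l)) fun i => ?_)
    rw [congrFun hy i, Pi.add_apply, Pi.smul_apply, smul_eq_mul, map_add, map_mul, ← hs]
    field_simp
  have hu0 : u ≠ 0 := by
    intro h0
    rw [h0, zero_div] at htr'
    exact htr' isAlgebraic_zero
  have hH1d' : 1 ≤ H1.natDegree := le_natDegree_of_ne_zero hu0
  have hn : n = c + 1 := by omega
  refine ⟨hn, _, _, u, v, hv0, htr', ?_, hy⟩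
  rw [LinearIndependent.pair_iff]
  intro s t hst
  have h1 : (C s + C t * X) * B = 0 := by
    ext l
    rw [coeff_zero]
    by_cases hl : l < n + 1
    · have h2 := congrFun hst (Fin.natAdd c ⟨l, hl⟩)
      rw [Pi.add_apply, Pi.smul_apply, Pi.smul_apply, smul_eq_mul, smul_eq_mul] at h2
      erw [pt_right, pt_right] at h2
      rw [add_mul, coeff_add, coeff_C_mul, mul_assoc, coeff_C_mul]
      exact h2
    · refine coeff_eq_zero_of_natDegree_lt (lt_of_le_of_lt natDegree_mul_le ?_)
      have h3 : (C s + C t * X : k[X]).natDegree ≤ 1 := by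
        refine (natDegree_add_le _ _).trans ?_
        rw [natDegree_C]
        exact max_le (by omega) ((natDegree_C_mul_le t X).trans natDegree_X_le)
      rw [hB, BB_deg]
      omega
  have h2 := (mul_eq_zero.1 h1).resolve_right (BB_ne a i)
  have h3 := congrArg (fun f : k[X] => f.coeff 0) h2
  have h4 := congrArg (fun f : k[X] => f.coeff 1) h2
  simp at h3 h4
  exact ⟨h3, h4⟩

variable {ι : Type} {F : ι → MvPolynomial (Fin (c + n + 1)) k} {a : (j : Fin c) → Fin (d j) → k}

theorem trdeg_ne {t : ℕ} {y : Fin (c + n + 1) → K} (ht : 1 ≤ t) (hy : SubVar F K t y) :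
    Algebra.trdeg k K ≠ 0 := by
  rw [hy.dim]
  exact_mod_cast (by omega : t ≠ 0)

/-- the subvarieties which are not of general type are lines -/
theorem ngt_line [IsAlgClosed k] [CharZero k] (hnc : n ≤ c + 1) (hnum : Num n c d)
    (ha : Function.Injective fun t : Σ j, Fin (d j) => a t.1 t.2) (hF : ∀ e, IsForm (F e))
    (hV : Cone F ⊆ CompInt n a) {t : ℕ} {y : Fin (c + n + 1) → K} (ht : 1 ≤ t)
    (hy : SubVar F K t y) (hgt : ¬ GeneralType k K t) :
    n = c + 1 ∧ ∃ p q, Line F p q ∧ ∀ G : MvPolynomial (Fin (c + n + 1)) k, IsForm G →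
      (∀ s s' : k, val (s • p + s' • q) G = 0) → val y G = 0 := by
  have hinf : Infinite k := inferInstance
  have hw : wp y = 0 := by
    by_contra h
    exact hgt (gt_sub hnum ha hV ht hy h)
  obtain ⟨h1, p, q, u, v, hv, htr, hli, hyy⟩ := line_struct hnc hnum.pos ha hy.ne
    (onCI_of hV hy.ne hy.mem) hw (trdeg_ne ht hy) hy.gen
  refine ⟨h1, p, q, ⟨hli, fun s s' e => gen_line (hF e) hv htr ?_ s s'⟩, fun G hG hall => ?_⟩
  · rw [← hyy]
    exact hy.mem e
  · rw [hyy]
    exact line_ext hG hv hall

/-- **Special sets** of all closed subsets, if `n ≤ c + 1`. -/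
theorem special_ci [IsAlgClosed k] [CharZero k] (hnc : n ≤ c + 1) (hnum : Num n c d)
    (ha : Function.Injective fun t : Σ j, Fin (d j) => a t.1 t.2) (hF : ∀ e, IsForm (F e))
    (hV : Cone F ⊆ CompInt n a) : SpAlg F = SpLine F ∧ SpGm F = SpLine F := by
  have hinf : Infinite k := inferInstance
  have h1 : SpLine F ⊆ SpGm F := line_sub_gm _
  have h2 : SpGm F ⊆ SpAlg F := gm_sub_alg hF
  have h3 : SpAlg F ⊆ SpLine F := by
    rintro x ⟨hx, h⟩
    refine ⟨hx, fun G hG hL => h G hG ?_⟩
    intro K _ _ t y ht hy hgt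
    obtain ⟨-, p, q, hpq, hall⟩ := ngt_line hnc hnum ha hF hV ht hy hgt
    exact hall G hG (hL p q hpq)
  exact ⟨Set.Subset.antisymm h3 (h1.trans h2), Set.Subset.antisymm (h2.trans h3) h1⟩

end Pool.Agent.Y190.CI
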