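import Pool.Agent.Y190.CI.Full

/-!
Quasi-projective varieties which are generically finite over a closed subvariety of a complete
intersection.
-/

set_option autoImplicit false

open MvPolynomial Metric Filter Topology

namespace Pool.Agent.Y190.CI

open Pool.Agent.W602.Cov Pool.Agent.W602.Cov.Cover Pool.Agent.W602.Cov.R Pool.Agent.W603.BP
open Pool.Agent.W601.PH Pool.Agent.W602.GT Pool.Agent.Y216 Pool.Agent.Y216.LG
open Pool.Agent.TH152.HY hiding aeval_inr main
open Pool.Agent.Y191 (SemiAbelianOff semi_of_brody lf)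
open Pool.Agent.Y190.SC Pool.Agent.Y190.BV

variable {N c n : ℕ} {d : Fin c → ℕ}

/-- `X` is mapped into the complete intersection by the second projection. -/
def Over (X : BiSet N (c + n)) (a : (j : Fin c) → Fin (d j) → ℂ) : Prop :=
  ∀ (u : Fin (N + 1) → ℂ) (v : Fin (c + n + 1) → ℂ), X.Mem u v → v ∈ CompInt n a

theorem Over.mem {X : BiSet N (c + n)} {a : (j : Fin c) → Fin (d j) → ℂ} (h : Over X a)
    {L : Type} [Field L] [Algebra ℂ L] {x : Fin (N + 1) → L} {y : Fin (c + n + 1) → L}
    (hxy : X.Mem x y) : OnCI a (fun _ => 1) (wp y) (hp y) := by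
  intro j
  rw [map_one, one_mul]
  by_contra hne
  obtain ⟨i0, hi0⟩ := Function.ne_iff.1 hxy.1
  obtain ⟨k0, hk0⟩ := Function.ne_iff.1 hxy.2.1
  have h1 : aeval (Sum.elim x y) ((rename Sum.inr (eqF n a j) : BiPoly N (c + n)) *
      MvPolynomial.X (Sum.inl i0) * MvPolynomial.X (Sum.inr k0)) ≠ 0 := by
    rw [map_mul, map_mul, aeval_X, aeval_X, aeval_rename, Sum.elim_inl, Sum.elim_inr]
    refine mul_ne_zero (mul_ne_zero ?_ hi0) hk0
    have h2 : aeval y (eqF n a j) = wp y j ^ d j - _ := val_eqF a j y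
    have h3 : aeval (Sum.elim x y ∘ Sum.inr) (eqF n a j) = aeval y (eqF n a j) := rfl
    rw [h3, h2]
    exact sub_ne_zero.2 hne
  obtain ⟨z, hz, hz0⟩ := specialise (Sum.elim x y) _ h1
  rw [map_mul, map_mul, aeval_X, aeval_X, aeval_rename] at hz
  have hzx : (fun i => z (Sum.inl i)) ≠ 0 := fun h =>
    (right_ne_zero_of_mul (left_ne_zero_of_mul hz)) (congrFun h i0)
  have hzy : (fun i => z (Sum.inr i)) ≠ 0 := fun h => (right_ne_zero_of_mul hz) (congrFun h k0)
  have hzm : X.Mem (fun i => z (Sum.inl i)) (fun i => z (Sum.inr i)) := by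
    refine ⟨hzx, hzy, fun G hG => ?_⟩
    have e : (Sum.elim (fun i => z (Sum.inl i)) fun i => z (Sum.inr i)) = z := by
      funext s
      cases s <;> rfl
    rw [e]
    exact hz0 G (hxy.2.2 G hG)
  have h4 := h _ _ hzm
  rw [← cone_eqF] at h4
  exact (left_ne_zero_of_mul (left_ne_zero_of_mul hz)) (h4.2 j)

/-- **The generalized Green-Griffiths-Lang conjecture** for the quasi-projective varieties which are
generically finite over a closed subvariety of a complete intersection. -/
theorem over_ci (hnum : Num n c d) {a : (j : Fin c) → Fin (d j) → ℂ}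
    (ha : Function.Injective fun t : Σ j, Fin (d j) => a t.1 t.2) {X D : BiSet N (c + n)}
    (hX : Over X a) {K : Type} [Field K] [Algebra ℂ K] {x : Fin (N + 1) → K}
    {y : Fin (c + n + 1) → K} {t : ℕ} (hK : X.FunctionField K x y) (hD : ¬ D.Mem x y)
    (halg : Algebra.IsAlgebraic
      (IntermediateField.adjoin ℂ {f : K | ∃ i j, y j ≠ 0 ∧ f = y i / y j}) K)
    (ht : Algebra.trdeg ℂ K = t) (ht1 : 1 ≤ t) {j0 : Fin c}
    (hw : y (Fin.castAdd (n + 1) j0) ≠ 0) :
    ∃ (G : BiPoly N (c + n)) (E : ℕ), BiHom G 0 E ∧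
      (∃ u v, QMem X D u v ∧ eval (Sum.elim u v) G ≠ 0) ∧
      LogGeneralType ℂ K t (CentreIn D x y) ∧
      PicardOff X D G ∧ BrodyOff X D G ∧ SemiAbelianOff X D G ∧ LangOff X D G := by
  classical
  choose Dg mm e hrel using fun i j => exists_rel hK halg i j
  let Q0 : MvPolynomial (Fin (c + n + 1)) ℂ :=
    ∏ i : Fin (N + 1), ∏ j : Fin (N + 1), e i j (mm i j)
  let Q : MvPolynomial (Fin (c + n + 1)) ℂ := Q0 * MvPolynomial.X (Fin.castAdd (n + 1) j0)
  obtain ⟨E, hQh⟩ : ∃ E, Q.IsHomogeneous E :=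
    ⟨_, (IsHomogeneous.prod _ _ _ fun i _ => IsHomogeneous.prod _ _ _ fun j _ =>
      (hrel i j).1.hom _ le_rfl).mul (isHomogeneous_X _ _)⟩
  have hsplit : ∀ {L : Type} [Field L] [Algebra ℂ L] (y' : Fin (c + n + 1) → L),
      aeval y' Q ≠ 0 → (∀ i j, aeval y' (e i j (mm i j)) ≠ 0) ∧ wp y' j0 ≠ 0 := by
    intro L _ _ y' hy
    simp only [Q, Q0, map_mul, map_prod] at hy
    refine ⟨fun i j h0 => hy ?_, fun h0 => hy ?_⟩
    · rw [Finset.prod_eq_zero (Finset.mem_univ i) (Finset.prod_eq_zero (Finset.mem_univ j) h0),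
        zero_mul]
    · rw [aeval_X]
      have h1 : y' (Fin.castAdd (n + 1) j0) = 0 := h0
      rw [h1, mul_zero]
  have hyQ : aeval y Q ≠ 0 := by
    simp only [Q, Q0, map_mul, map_prod]
    refine mul_ne_zero (Finset.prod_ne_zero_iff.mpr fun i _ =>
      Finset.prod_ne_zero_iff.mpr fun j _ => (hrel i j).2) ?_
    rw [aeval_X]
    exact hw
  have hinr : ∀ {L : Type} [Field L] [Algebra ℂ L] (x' : Fin (N + 1) → L)
      (y' : Fin (c + n + 1) → L),
      aeval (Sum.elim x' y') (rename Sum.inr Q : BiPoly N (c + n)) = aeval y' Q := by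
    intro L _ _ x' y'
    rw [aeval_rename]
    rfl
  have hLang : LangOff X D (rename Sum.inr Q) := by
    intro L _ _ x' y' w hmem _ hne hgen htr hw'
    rw [hinr] at hne
    obtain ⟨h1, h2⟩ := hsplit y' hne
    have h3 := alg_sub (fun i j => (hrel i j).1) hmem h1 hgen
    have ho := hX.mem hmem
    have hy0 := hmem.2.1
    have hh := hp_ne hnum.pos hy0 ho
    refine gt_ci c n d a (fun _ => 1) hnum ha (fun _ => one_ne_zero) L (wp y') (hp y') w ho hh
      ⟨j0, h2⟩ htr hw' ?_ _
    -- the field of the coordinates is algebraic over the one of the polynomial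
    obtain ⟨p, hp0⟩ := Function.ne_iff.1 hh
    have hp' : hp y' p ≠ 0 := hp0
    set M := coords ℂ (hp y') with hM
    have hm : ∀ l, hp y' l / hp y' p ∈ M := fun l =>
      IntermediateField.subset_adjoin ℂ _ ⟨l, p, hp', rfl⟩
    have h5 := ratio_alg hnum.pos ho hp'
    constructor
    intro f
    have h6 : Algebra.IsAlgebraic ((algebraicClosure M L).restrictScalars ℂ) L := by
      have hle : IntermediateField.adjoin ℂ {f : L | ∃ i j, y' j ≠ 0 ∧ f = y' i / y' j} ≤
          (algebraicClosure M L).restrictScalars ℂ := by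
        rw [IntermediateField.adjoin_le_iff]
        rintro f ⟨i, j, hj, rfl⟩
        have h7 : y' i / y' j = y' i / hp y' p * (y' j / hp y' p)⁻¹ := by field_simp
        have h8 : IsAlgebraic M (y' i / y' j) := by
          rw [h7]
          exact (h5 i).mul (h5 j).inv
        exact mem_algebraicClosure_iff.2 h8
      exact alg_coords hle h3
    have h7 : IsAlgebraic (algebraicClosure M L) f := h6.isAlgebraic f
    have h8 : Algebra.IsAlgebraic M (algebraicClosure M L) := inferInstance
    exact h7.restrictScalars M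
  have hPic : PicardOff X D (rename Sum.inr Q) := by
    rintro u v huv ⟨z0, hz0, hne⟩
    have hu := fun j => an_of_diffOn huv.diffu j
    have hva := fun j => an_of_diffOn huv.diffv j
    have hmem : ∀ z ∈ PB 1, QMem X D (u z) (v z) := fun z hz => huv.mem z (mem_disc.mpr hz)
    have hne' : aeval (v z0) Q ≠ 0 := by
      rw [← hinr (u z0) (v z0)]
      exact hne
    obtain ⟨h1, h2⟩ := hsplit (v z0) hne'
    have ho : ∀ z ∈ PB 1, OnCI a (fun _ => 1) (wp (v z)) (hp (v z)) := fun z hz =>
      hX.mem (hmem z hz).1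
    have hh : ∀ z ∈ PB 1, hp (v z) ≠ 0 := fun z hz =>
      hp_ne hnum.pos (hmem z hz).1.2.1 (ho z hz)
    have hEh : Extends fun z => hp (v z) := disc_ci c n d a (fun _ => 1) hnum ha
      (fun _ => one_ne_zero) (fun z => wp (v z)) (fun z => hp (v z)) (fun j => hva _)
      (fun l => hva _) hh ho ⟨z0, mem_disc.1 hz0, j0, h2⟩
    have hE : Extends v := extends_lift (X := conv (cis n a (fun _ => 1))) hva
      (fun z hz => cis_mem (hh z hz) (ho z hz)) hEh (mem_disc.1 hz0)
      ((ci_finite hnum.pos a (fun _ => 1)).fib (hh z0 (mem_disc.1 hz0)))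
    exact ⟨extends_lift (X := conv X) hu (fun z hz => (hmem z hz).1) hE (mem_disc.mp hz0)
      (fib_finite (fun i j => (hrel i j).1) h1), hE⟩
  refine ⟨rename Sum.inr Q, E, biHom_rename hQh, ?_, ?_, hPic,
    brody_of_picard hPic, semi_of_brody (brody_of_picard hPic), hLang⟩
  · exact exists_pt hK hD (biHom_rename hQh) (by rw [hinr]; exact hyQ)
  · exact hLang K x y t hK.mem hD (by rw [hinr]; exact hyQ) hK.gen ht ht1

end Pool.Agent.Y190.CI
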