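import Pool.Agent.Y190.CI.Lin
import Pool.Agent.Y190.CI.Disc
import Pool.Agent.Y190.AN.Cg

/-!
Holomorphic maps from the punctured disc to closed subsets of the complete intersections.
-/

set_option autoImplicit false

open MvPolynomial Metric Filter Topology Set

namespace Pool.Agent.Y190.CI

open Pool.Agent.W602.Cov.R Pool.Agent.W603.BP
open Pool.Agent.W601.PH Pool.Agent.W602.GT Pool.Agent.Y216 Pool.Agent.Y216.LG
open Pool.Agent.Y190.SC Pool.Agent.Y190.BV Pool.Agent.Y190.AN
open Pool.Agent.H159R3.GGLLog Pool.Agent.H159R3.NV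
open Pool.Agent.Y190.QP (line_all)
open Pool.Agent.Y191 (lf)

variable {c n : ℕ} {d : Fin c → ℕ}

/-- the point of the closed subset of the product -/
theorem cis_mem {a : (j : Fin c) → Fin (d j) → ℂ} {κ : Fin c → ℂ} {L : Type} [Field L]
    [Algebra ℂ L] {y : Fin (c + n + 1) → L} (hh : hp y ≠ 0) (ho : OnCI a κ (wp y) (hp y)) :
    (cis n a κ).Mem y (hp y) := by
  refine ⟨fun h => hh ?_, hh, ?_⟩
  · rw [h]
    rfl
  · rintro G (⟨i, j, rfl⟩ | ⟨j, rfl⟩)
    · rw [map_sub, map_mul, map_mul, aeval_X, aeval_X, aeval_X, aeval_X, Sum.elim_inl,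
        Sum.elim_inl, Sum.elim_inr, Sum.elim_inr]
      unfold hp
      ring
    · unfold ciEq
      rw [map_sub, map_pow, aeval_X, Sum.elim_inl, map_mul, aeval_C, map_prod]
      have h1 : y (Fin.castAdd (n + 1) j) ^ d j = _ := ho j
      rw [h1, sub_eq_zero]
      congr 1
      refine Finset.prod_congr rfl fun i _ => ?_
      rw [Pool.Agent.Y216.LG.eval_pol_eq]
      unfold lf
      rw [map_sum]
      refine Finset.sum_congr rfl fun l _ => ?_
      rw [map_mul, aeval_C, aeval_X, Sum.elim_inl]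
      rfl

/-- a curve in the intersection with a fixed line -/
theorem line_or_ext {N : ℕ} {ι : Type} {F : ι → MvPolynomial (Fin (N + 1)) ℂ}
    (hF : ∀ e, IsForm (F e)) {f : ℂ → Fin (N + 1) → ℂ} (hfF : ∀ z ∈ PB 1, ∀ e, val (f z) (F e) = 0)
    (hf0 : ∀ z ∈ PB 1, f z ≠ 0) {p q : Fin (N + 1) → ℂ} {u v : ℂ → ℂ}
    (hu : AnalyticOnNhd ℂ u (PB 1)) (hv : AnalyticOnNhd ℂ v (PB 1))
    (hfuv : ∀ z ∈ PB 1, f z = v z • p + u z • q) (hE : ¬ Extends f) :
    ∀ (s t : ℂ) (e : ι), val (s • p + t • q) (F e) = 0 := by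
  have hPBne : (PB 1).Nonempty := ⟨1 / 2, by
    refine ⟨by norm_num, ?_⟩
    rw [norm_div, norm_one]
    norm_num⟩
  have hconst : ∀ (r : Fin (N + 1) → ℂ) (g : ℂ → ℂ), (∀ z ∈ PB 1, f z = g z • r) → False := by
    intro r g hg
    apply hE
    have hr : r ≠ 0 := by
      rintro rfl
      obtain ⟨z, hz⟩ := hPBne
      apply hf0 z hz
      rw [hg z hz, smul_zero]
    exact ⟨fun _ => r, differentiableOn_const r, fun _ _ => hr, fun z hz =>
      ⟨g z, hg z (mem_disc.1 hz)⟩⟩
  intro s t e
  obtain ⟨D, hD⟩ := hF e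
  set P : Fin (N + 1) → Polynomial ℂ := fun i => Polynomial.C (p i) + Polynomial.X *
    Polynomial.C (q i) with hP
  set Q := MvPolynomial.aeval P (F e) with hQ
  have hval : ∀ τ : ℂ, Q.eval τ = val (p + τ • q) (F e) := by
    intro τ
    have h1 := aeval_two P (F e) τ
    rw [← hQ, Polynomial.coe_aeval_eq_eval] at h1
    rw [h1]
    congr 1
    funext i
    simp only [hP, Polynomial.eval_add, Polynomial.eval_mul, Polynomial.eval_C, Polynomial.eval_X,
      Pi.add_apply, Pi.smul_apply, smul_eq_mul]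
  have hsc : ∀ s t : ℂ, s ≠ 0 → val (s • p + t • q) (F e) = s ^ D * Q.eval (t / s) := by
    intro s t hs
    rw [hval, ← val_smul hD]
    congr 1
    funext i
    simp only [Pi.add_apply, Pi.smul_apply, smul_eq_mul]
    field_simp
  by_cases hQ0 : Q = 0
  · refine line_all (fun s t hs _ => ?_) s t
    rw [hsc s t hs, hQ0, Polynomial.eval_zero, mul_zero]
  · exfalso
    have h1 : ∀ z ∈ PB 1, v z * ∏ r ∈ Q.roots.toFinset, (u z - r * v z) = 0 := by
      intro z hz
      by_cases hvz : v z = 0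
      · rw [hvz, zero_mul]
      · have h2 := hfF z hz e
        rw [hfuv z hz, hsc _ _ hvz] at h2
        have h3 := (mul_eq_zero.1 h2).resolve_left (pow_ne_zero _ hvz)
        have h4 : u z / v z ∈ Q.roots.toFinset := by
          rw [Multiset.mem_toFinset, Polynomial.mem_roots hQ0]
          exact h3
        rw [Finset.prod_eq_zero h4, mul_zero]
        field_simp
        ring
    have h2 : AnalyticOnNhd ℂ (fun z => ∏ r ∈ Q.roots.toFinset, (u z - r * v z)) (PB 1) :=
      Finset.analyticOnNhd_fun_prod _ fun r _ => hu.sub (analyticOnNhd_const.mul hv)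
    rcases AnalyticOnNhd.eq_zero_or_eq_zero_of_mul_eq_zero hv h2 h1 (PB_preconn one_pos) with
      h3 | h3
    · refine hconst q u fun z hz => ?_
      rw [hfuv z hz, h3 z hz, zero_smul, zero_add]
    · obtain ⟨r, -, h4⟩ := prod_zero (PB_preconn one_pos) _ (fun r z => u z - r * v z)
        (fun r _ => hu.sub (analyticOnNhd_const.mul hv)) hPBne h3
      refine hconst (p + r • q) v fun z hz => ?_
      have h5 : u z = r * v z := sub_eq_zero.1 (h4 z hz)
      rw [hfuv z hz, h5, smul_add, smul_smul, mul_comm r]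

/-- **Picard**: holomorphic maps from the punctured disc with an essential singularity lie in lines
which are contained in the variety. -/
theorem pic_line (hnc : n ≤ c + 1) (hnum : Num n c d) {a : (j : Fin c) → Fin (d j) → ℂ}
    (ha : Function.Injective fun t : Σ j, Fin (d j) => a t.1 t.2) {ι : Type}
    {F : ι → MvPolynomial (Fin (c + n + 1)) ℂ} (hF : ∀ e, IsForm (F e))
    (hV : Cone F ⊆ CompInt n a) {f : ℂ → Fin (c + n + 1) → ℂ} (hf : PCurve ∅ F f)
    (hE : ¬ Extends f) :
    n = c + 1 ∧ ∃ p q, Line F p q ∧ ∀ z ∈ PB 1, ∃ s t : ℂ, f z = s • p + t • q := by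
  classical
  have hfa : ∀ i, AnalyticOnNhd ℂ (fun z => f z i) (PB 1) := fun i => hf.an i
  have hcone : ∀ z ∈ PB 1, f z ≠ 0 ∧ ∀ e, val (f z) (F e) = 0 := by
    intro z hz
    have h1 := hf.2 z (mem_disc.2 hz)
    rw [pts_eq] at h1
    exact h1
  have ho : ∀ z ∈ PB 1, OnCI a (fun _ => 1) (wp (f z)) (hp (f z)) := fun z hz =>
    onCI_of hV (hcone z hz).1 (hcone z hz).2
  have hh : ∀ z ∈ PB 1, hp (f z) ≠ 0 := fun z hz => hp_ne hnum.pos (hcone z hz).1 (ho z hz)
  have hPBne : (PB 1).Nonempty := ⟨1 / 2, by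
    refine ⟨by norm_num, ?_⟩
    rw [norm_div, norm_one]
    norm_num⟩
  by_cases hw : ∃ z ∈ PB 1, ∃ j, wp (f z) j ≠ 0
  · exfalso
    apply hE
    have hEh : Extends fun z => hp (f z) := disc_ci c n d a (fun _ => 1) hnum ha
      (fun _ => one_ne_zero) (fun z => wp (f z)) (fun z => hp (f z)) (fun j => hfa _)
      (fun l => hfa _) hh ho hw
    obtain ⟨z0, hz0⟩ := hPBne
    exact extends_lift (X := Pool.Agent.TH152.HY.conv (cis n a (fun _ => 1))) hfa
      (fun z hz => cis_mem (hh z hz) (ho z hz)) hEh hz0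
      ((ci_finite hnum.pos a (fun _ => 1)).fib (hh z0 hz0))
  · push Not at hw
    -- the roots
    have hev : ∀ β : ℂ, AnalyticOnNhd ℂ (fun z => (pol (hp (f z))).eval β) (PB 1) := by
      intro β
      have : (fun z => (pol (hp (f z))).eval β) = fun z =>
          ∑ l : Fin (n + 1), hp (f z) l * β ^ (l : ℕ) := by
        funext z
        unfold pol
        rw [Polynomial.eval_finsetSum]
        refine Finset.sum_congr rfl fun l _ => ?_
        rw [Polynomial.eval_mul, Polynomial.eval_C, Polynomial.eval_pow, Polynomial.eval_X]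
      rw [this]
      exact Finset.analyticOnNhd_fun_sum _ fun l _ => (hfa _).mul analyticOnNhd_const
    have hroot : ∀ j, ∃ i : Fin (d j), ∀ z ∈ PB 1, (pol (hp (f z))).eval (a j i) = 0 := by
      intro j
      obtain ⟨i, -, hi⟩ := prod_zero (PB_preconn one_pos) Finset.univ
        (fun i z => (pol (hp (f z))).eval (a j i)) (fun i _ => hev _) hPBne fun z hz => by
          have h1 := ho z hz j
          rw [hw z hz j, zero_pow (hnum.pos j).ne'] at h1
          exact (mul_eq_zero.1 h1.symm).resolve_left (by rw [map_one]; exact one_ne_zero)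
      exact ⟨i, hi⟩
    choose i hi using hroot
    set B := BB a i with hB
    have hdvd : ∀ z ∈ PB 1, B ∣ pol (hp (f z)) := by
      intro z hz
      rw [hB]
      unfold BB
      refine Finset.prod_dvd_of_coprime ?_ fun j _ => Polynomial.dvd_iff_isRoot.2 (hi j z hz)
      intro j _ j' _ hjj
      simp only [Function.onFun]
      refine Polynomial.isCoprime_X_sub_C_of_isUnit_sub (IsUnit.mk0 _ ?_)
      rw [sub_ne_zero]
      intro h2
      have h3 := @ha ⟨j, i j⟩ ⟨j', i j'⟩ h2
      rw [Sigma.mk.injEq] at h3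
      exact hjj h3.1
    have hB0 : B ≠ 0 := BB_ne a i
    have hmon : B.Monic := by
      rw [hB]
      unfold BB
      exact Polynomial.monic_prod_of_monic _ _ fun j _ => Polynomial.monic_X_sub_C _
    -- the quotient
    let H1 : ℂ → Polynomial ℂ := fun z => pol (hp (f z)) /ₘ B
    have hH1 : ∀ z ∈ PB 1, pol (hp (f z)) = B * H1 z := by
      intro z hz
      have h1 := Polynomial.modByMonic_add_div (pol (hp (f z))) B
      rw [(Polynomial.modByMonic_eq_zero_iff_dvd hmon).2 (hdvd z hz), zero_add] at h1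
      exact h1.symm
    have hdeg : ∀ z, (H1 z).natDegree ≤ n - c := by
      intro z
      change (pol (hp (f z)) /ₘ B).natDegree ≤ _
      rw [Polynomial.natDegree_divByMonic _ hmon, hB, BB_deg]
      exact Nat.sub_le_sub_right (natDegree_pol_le _) _
    have hH1e : ∀ z, H1 z = Polynomial.C ((H1 z).coeff 0) +
        Polynomial.C ((H1 z).coeff 1) * Polynomial.X := by
      intro z
      conv_lhs => rw [Polynomial.eq_X_add_C_of_natDegree_le_one ((hdeg z).trans (by omega))]
      rw [add_comm]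
    have hf1 : ∀ z ∈ PB 1, f z = (H1 z).coeff 0 • pt c n (fun l => B.coeff l) +
        (H1 z).coeff 1 • pt c n (fun l => (Polynomial.X * B).coeff l) := by
      intro z hz
      funext l
      refine Fin.addCases (m := c) (n := n + 1) (fun j => ?_) (fun l => ?_) l
      · rw [Pi.add_apply, Pi.smul_apply, Pi.smul_apply]
        erw [pt_left, pt_left]
        rw [smul_zero, smul_zero, add_zero]
        exact hw z hz j
      · rw [Pi.add_apply, Pi.smul_apply, Pi.smul_apply]
        erw [pt_right, pt_right]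
        have h1 := coeff_pol (hp (f z)) l
        rw [hH1 z hz, hH1e z, mul_add, Polynomial.coeff_add, mul_comm _ (Polynomial.C _),
          Polynomial.coeff_C_mul,
          show B * (Polynomial.C ((H1 z).coeff 1) * Polynomial.X) =
            Polynomial.C ((H1 z).coeff 1) * (Polynomial.X * B) by ring,
          Polynomial.coeff_C_mul] at h1
        exact h1.symm
    -- the coefficients are analytic: evaluate at two points
    have hquot : ∀ β : ℂ, B.eval β ≠ 0 →
        AnalyticOnNhd ℂ (fun z => (B.eval β)⁻¹ * (pol (hp (f z))).eval β) (PB 1) := fun β _ =>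
      analyticOnNhd_const.mul (hev β)
    obtain ⟨β0, hβ0⟩ : ∃ β : ℂ, B.eval β ≠ 0 := by
      by_contra hcon
      push Not at hcon
      exact hB0 (Polynomial.funext fun x => by rw [hcon x, Polynomial.eval_zero])
    obtain ⟨β1, hβ1, hβ01⟩ : ∃ β : ℂ, B.eval β ≠ 0 ∧ β ≠ β0 := by
      by_contra hcon
      push Not at hcon
      have h1 : B * (Polynomial.X - Polynomial.C β0) = 0 := Polynomial.funext fun x => by
        rw [Polynomial.eval_mul, Polynomial.eval_sub, Polynomial.eval_X, Polynomial.eval_C,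
          Polynomial.eval_zero]
        by_cases hx : B.eval x = 0
        · rw [hx, zero_mul]
        · rw [hcon x hx, sub_self, mul_zero]
      exact (mul_ne_zero hB0 (Polynomial.X_sub_C_ne_zero β0)) h1
    set g0 : ℂ → ℂ := fun z => (B.eval β0)⁻¹ * (pol (hp (f z))).eval β0 with hg0
    set g1 : ℂ → ℂ := fun z => (B.eval β1)⁻¹ * (pol (hp (f z))).eval β1 with hg1
    have hg0a : AnalyticOnNhd ℂ g0 (PB 1) := hquot β0 hβ0
    have hg1a : AnalyticOnNhd ℂ g1 (PB 1) := hquot β1 hβ1
    have hge : ∀ β : ℂ, B.eval β ≠ 0 → ∀ z ∈ PB 1, (B.eval β)⁻¹ * (pol (hp (f z))).eval β =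
        (H1 z).coeff 0 + (H1 z).coeff 1 * β := by
      intro β hβ z hz
      rw [hH1 z hz, Polynomial.eval_mul, ← mul_assoc, inv_mul_cancel₀ hβ, one_mul]
      conv_lhs => rw [hH1e z]
      rw [Polynomial.eval_add, Polynomial.eval_C, Polynomial.eval_mul, Polynomial.eval_C,
        Polynomial.eval_X]
    have hne : β1 - β0 ≠ 0 := sub_ne_zero.2 hβ01
    have hu1 : ∀ z ∈ PB 1, (H1 z).coeff 1 = (β1 - β0)⁻¹ * (g1 z - g0 z) := by
      intro z hz
      have h1 : g1 z - g0 z = (H1 z).coeff 1 * (β1 - β0) := by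
        rw [hg0, hg1]
        simp only
        rw [hge β1 hβ1 z hz, hge β0 hβ0 z hz]
        ring
      rw [h1]
      field_simp
    have hv1 : ∀ z ∈ PB 1, (H1 z).coeff 0 = g0 z - (β1 - β0)⁻¹ * (g1 z - g0 z) * β0 := by
      intro z hz
      rw [← hu1 z hz]
      have := hge β0 hβ0 z hz
      rw [hg0]
      simp only
      rw [this]
      ring
    set u : ℂ → ℂ := fun z => (β1 - β0)⁻¹ * (g1 z - g0 z) with hu
    set v : ℂ → ℂ := fun z => g0 z - (β1 - β0)⁻¹ * (g1 z - g0 z) * β0 with hv
    have hua : AnalyticOnNhd ℂ u (PB 1) := analyticOnNhd_const.mul (hg1a.sub hg0a)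
    have hva : AnalyticOnNhd ℂ v (PB 1) := hg0a.sub (hua.mul analyticOnNhd_const)
    have hf2 : ∀ z ∈ PB 1, f z = v z • pt c n (fun l => B.coeff l) +
        u z • pt c n (fun l => (Polynomial.X * B).coeff l) := by
      intro z hz
      rw [hf1 z hz, hu1 z hz, hv1 z hz]
    have hline := line_or_ext hF (fun z hz => (hcone z hz).2) (fun z hz => (hcone z hz).1) hua hva
      hf2 hE
    -- the degree
    have hn : n = c + 1 := by
      by_contra hne
      apply hE
      have h1 : ∀ z, (H1 z).coeff 1 = 0 := fun z =>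
        Polynomial.coeff_eq_zero_of_natDegree_lt (lt_of_le_of_lt (hdeg z) (by omega))
      have h2 : ∀ z ∈ PB 1, f z = (H1 z).coeff 0 • pt c n (fun l => B.coeff l) := by
        intro z hz
        rw [hf1 z hz, h1, zero_smul, add_zero]
      refine ⟨fun _ => pt c n (fun l => B.coeff l), differentiableOn_const _, fun _ _ h0 => ?_,
        fun z hz => ⟨_, h2 z (mem_disc.1 hz)⟩⟩
      obtain ⟨z, hz⟩ := hPBne
      apply (hcone z hz).1
      have h3 : pt c n (fun l => B.coeff l) = 0 := h0
      rw [h2 z hz, h3, smul_zero]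
    refine ⟨hn, _, _, ⟨?_, hline⟩, fun z hz => ⟨_, _, hf2 z hz⟩⟩
    rw [LinearIndependent.pair_iff]
    intro s t hst
    have h1 : (Polynomial.C s + Polynomial.C t * Polynomial.X) * B = 0 := by
      ext l
      rw [Polynomial.coeff_zero]
      by_cases hl : l < n + 1
      · have h2 := congrFun hst (Fin.natAdd c ⟨l, hl⟩)
        rw [Pi.add_apply, Pi.smul_apply, Pi.smul_apply, smul_eq_mul, smul_eq_mul] at h2
        erw [pt_right, pt_right] at h2
        rw [add_mul, Polynomial.coeff_add, Polynomial.coeff_C_mul, mul_assoc,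
          Polynomial.coeff_C_mul]
        exact h2
      · refine Polynomial.coeff_eq_zero_of_natDegree_lt
          (lt_of_le_of_lt Polynomial.natDegree_mul_le ?_)
        have h3 : (Polynomial.C s + Polynomial.C t * Polynomial.X).natDegree ≤ 1 := by
          refine (Polynomial.natDegree_add_le _ _).trans ?_
          rw [Polynomial.natDegree_C]
          exact max_le (by omega) ((Polynomial.natDegree_C_mul_le t Polynomial.X).trans
            Polynomial.natDegree_X_le)
        rw [hB, BB_deg]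
        omega
    have h2 := (mul_eq_zero.1 h1).resolve_right hB0
    have h3 := congrArg (fun f : Polynomial ℂ => f.coeff 0) h2
    have h4 := congrArg (fun f : Polynomial ℂ => f.coeff 1) h2
    simp at h3 h4
    exact ⟨h3, h4⟩

variable {ι : Type} {F : ι → MvPolynomial (Fin (c + n + 1)) ℂ} {a : (j : Fin c) → Fin (d j) → ℂ}

/-- **All special sets agree**, if `n ≤ c + 1`. -/
theorem special_all (hnc : n ≤ c + 1) (hnum : Num n c d)
    (ha : Function.Injective fun t : Σ j, Fin (d j) => a t.1 t.2) (hF : ∀ e, IsForm (F e))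
    (hV : Cone F ⊆ CompInt n a) :
    SpAlg F = SpLine F ∧ SpP ∅ F = SpLine F ∧ SpH ∅ F = SpLine F ∧ SpCg ∅ F = SpLine F ∧
      SpGm F = SpLine F := by
  obtain ⟨h1, h2⟩ := special_ci hnc hnum ha hF hV
  have h3 : SpP ∅ F ⊆ SpLine F := by
    rintro x ⟨hx, h⟩
    rw [pts_eq] at hx
    refine ⟨hx, fun G hG hL => ?_⟩
    rw [val_eq]
    refine h G hG fun f hf hE z hz => ?_
    obtain ⟨-, p, q, hpq, hall⟩ := pic_line hnc hnum ha hF hV hf hE
    obtain ⟨s, t, hst⟩ := hall z (mem_disc.1 hz)
    rw [hst, ← val_eq]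
    exact hL p q hpq s t
  have h4 := spH_sub ∅ F
  have h5 := gm_sub_h F
  rw [h2] at h5
  have h6 : SpH ∅ F = SpLine F := Set.Subset.antisymm (h4.trans h3) h5
  exact ⟨h1, Set.Subset.antisymm h3 (h5.trans h4), h6, by rw [spCg_eq, h6], h2⟩

end Pool.Agent.Y190.CI
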