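import Pool.Agent.Y190.SC.Sum
import Pool.Agent.Y216.LG.Disc

/-!
Polynomials which satisfy several multiplicative equations: division by linear factors.
-/

set_option autoImplicit false

open Polynomial

namespace Pool.Agent.Y190.CI

open FF Pool.Agent.W602.GT Pool.Agent.Y190.BV Pool.Agent.Y190.SC Pool.Agent.Y216

/-- the coefficients of the quotient by `T - α` -/
noncomputable def dv {L : Type} [Field L] {n : ℕ} (α : L) (h : Fin (n + 2) → L) : Fin (n + 1) → L :=
  fun l => (pol h /ₘ (X - C α)).coeff (l : ℕ)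

theorem pol_coeff {L : Type} [Field L] {n : ℕ} {p : L[X]} (hp : p.natDegree ≤ n) :
    pol (fun l : Fin (n + 1) => p.coeff (l : ℕ)) = p := by
  ext i
  by_cases hi : i < n + 1
  · rw [coeff_pol_lt _ hi]
  · rw [coeff_pol_ge _ (by omega), coeff_eq_zero_of_natDegree_lt (by omega)]

theorem pol_dv {L : Type} [Field L] {n : ℕ} (α : L) (h : Fin (n + 2) → L) :
    pol (dv α h) = pol h /ₘ (X - C α) := by
  refine pol_coeff ?_
  rw [natDegree_divByMonic _ (monic_X_sub_C α), natDegree_X_sub_C]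
  have := natDegree_pol_le h
  omega

theorem pol_mul {L : Type} [Field L] {n : ℕ} {α : L} {h : Fin (n + 2) → L}
    (h0 : (pol h).eval α = 0) : (X - C α) * pol (dv α h) = pol h := by
  rw [pol_dv]
  exact mul_divByMonic_eq_iff_isRoot.2 h0

theorem eval_dv {L : Type} [Field L] {n : ℕ} {α : L} {h : Fin (n + 2) → L}
    (h0 : (pol h).eval α = 0) (β : L) :
    (pol h).eval β = (β - α) * (pol (dv α h)).eval β := by
  rw [← pol_mul h0, eval_mul, eval_sub, eval_X, eval_C]

theorem dv_ne {L : Type} [Field L] {n : ℕ} {α : L} {h : Fin (n + 2) → L}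
    (h0 : (pol h).eval α = 0) (hh : h ≠ 0) : dv α h ≠ 0 := by
  intro h1
  have h2 := pol_mul h0
  rw [h1] at h2
  have h3 : pol (0 : Fin (n + 1) → L) = 0 := by
    unfold pol
    simp
  rw [h3, mul_zero] at h2
  exact Pool.Agent.Y216.LG.pol_ne hh h2.symm

/-- The coordinates `h` in terms of the quotient. -/
theorem coeff_mul_dv {L : Type} [Field L] {n : ℕ} {α : L} {h : Fin (n + 2) → L}
    (h0 : (pol h).eval α = 0) (l : Fin (n + 2)) :
    h l = ((X - C α) * pol (dv α h)).coeff (l : ℕ) := by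
  rw [pol_mul h0, coeff_pol]

/-- The multiplicative equations. -/
def OnCI {k L : Type} [Field k] [Field L] [Algebra k L] {c n : ℕ} {d : Fin c → ℕ}
    (a : (j : Fin c) → Fin (d j) → k) (κ : Fin c → k) (w : Fin c → L) (h : Fin (n + 1) → L) :
    Prop :=
  ∀ j, w j ^ d j = algebraMap k L (κ j) * ∏ i, (pol h).eval (algebraMap k L (a j i))

/-- The numerical condition. -/
def Num (n c : ℕ) (d : Fin c → ℕ) : Prop :=
  ∀ J : Finset (Fin c), J.Nonempty → (n + J.card - c) * (J.card + 2) < ∑ j ∈ J, d j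

theorem Num.base {n c : ℕ} {d : Fin c → ℕ} (h : Num n c d) (hc : 0 < c) :
    n * (c + 2) < ∑ j, d j := by
  have h1 := h Finset.univ ⟨⟨0, hc⟩, Finset.mem_univ _⟩
  rw [Finset.card_univ, Fintype.card_fin, Nat.add_sub_cancel] at h1
  exact h1

theorem Num.pos {n c : ℕ} {d : Fin c → ℕ} (h : Num n c d) (j : Fin c) : 0 < d j := by
  have h1 := h {j} ⟨j, Finset.mem_singleton_self j⟩
  rw [Finset.sum_singleton] at h1
  omega

theorem Num.step {n c : ℕ} {d : Fin (c + 1) → ℕ} (h : Num (n + 1) (c + 1) d) (j : Fin (c + 1)) :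
    Num n c (fun i => d (j.succAbove i)) := by
  intro J hJ
  have h1 := h (J.map j.succAboveEmb) (hJ.map)
  rw [Finset.card_map, Finset.sum_map] at h1
  have h2 : n + 1 + J.card - (c + 1) = n + J.card - c := by omega
  rw [h2] at h1
  exact h1

theorem OnCI.step {k L : Type} [Field k] [Field L] [Algebra k L] {c n : ℕ} {d : Fin (c + 1) → ℕ}
    {a : (j : Fin (c + 1)) → Fin (d j) → k} {κ : Fin (c + 1) → k} {w : Fin (c + 1) → L}
    {h : Fin (n + 2) → L} (ho : OnCI a κ w h) (j : Fin (c + 1)) (i0 : Fin (d j))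
    (h0 : (pol h).eval (algebraMap k L (a j i0)) = 0) :
    OnCI (fun i => a (j.succAbove i)) (fun i => κ (j.succAbove i) *
      ∏ t, (a (j.succAbove i) t - a j i0)) (fun i => w (j.succAbove i))
      (dv (algebraMap k L (a j i0)) h) := by
  intro i
  have h1 := ho (j.succAbove i)
  rw [h1, map_mul, mul_assoc]
  congr 1
  rw [map_prod, ← Finset.prod_mul_distrib]
  refine Finset.prod_congr rfl fun t _ => ?_
  rw [eval_dv h0, map_sub]

end Pool.Agent.Y190.CI
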