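import Pool.Agent.Y190.SC.Core
import Pool.Agent.W603.LV.Ex

/-!
Statement: the degree inequality on curves (job CI-DEG).
-/

set_option autoImplicit false

open FF Pool.Agent.W603.LV Pool.Agent.W602.GT Polynomial

namespace Pool.Agent.Y190.CI

open Pool.Agent.Y190.BV Pool.Agent.Y190.SC

/-- Job CI-DEG. -/
def S_DEG : Prop :=
  ∀ (k K L : Type) [Field k] [Field K] [Field L] [Algebra k K] [Algebra k L] [Algebra K L]
    [IsScalarTower k K L] [IsAlgClosed k] [CharZero k] [IsFF k K] [FiniteDimensional K L]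
    [IsGalois K L] (κ ι : Type) [Fintype κ] [Fintype ι] [Nonempty ι] (T : Fam K L κ ι 1),
    (∀ l, IsTranscendenceBasis k (T.J l)) → ∀ (q : ℕ) (a : Fin q → k), Function.Injective a →
    ∀ (M S : ℕ) (c : Fin q → ℕ), 0 < M →
    (∀ x i, (T.p x).eval (algebraMap k K (a i)) ≠ 0) →
    (∀ x, Fintype.card ι * ∑ i, c i + 2 * (T.p x).natDegree * M + S ≤ q * M) →
    (∀ P : Place k K, SumC M c a T.H P) →
    (S : ℤ) * (- ∑ᶠ P : Place k K, cnt P T.H) ≤ M * Fintype.card ι * canDeg k K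

end Pool.Agent.Y190.CI
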