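import Pool.Agent.Y190.CI.Alg
import Pool.Agent.Y190.BV.Cng
import Pool.Agent.Y190.QP.Gml

/-!
Closed subsets of the complete intersections: general type and lines.
-/

set_option autoImplicit false

open Polynomial

namespace Pool.Agent.Y190.CI

open FF Pool.Agent.W602.GT Pool.Agent.Y190.BV Pool.Agent.Y190.SC Pool.Agent.Y216
open Pool.Agent.Y190.QP (line_all)

variable {k : Type} [Field k] {K : Type} [Field K] [Algebra k K] {c n : ℕ} {d : Fin c → ℕ}

/-- the coordinates `w` -/
def wp {L : Type} (y : Fin (c + n + 1) → L) : Fin c → L := fun j => y (Fin.castAdd (n + 1) j)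

/-- the coordinates of the polynomial -/
def hp {L : Type} (y : Fin (c + n + 1) → L) : Fin (n + 1) → L := fun l => y (Fin.natAdd c l)

/-- The (cone over the) complete intersection in `P^(c+n)` of the hypersurfaces
`w j ^ d j = H (a j 1) * ... * H (a j (d j))`: the first `c` coordinates are the `w j`, and the
last `n + 1` coordinates are the coefficients of the polynomial `H` of degree at most `n`. -/
def CompInt (n : ℕ) {c : ℕ} {d : Fin c → ℕ} (a : (j : Fin c) → Fin (d j) → k) :
    Set (Fin (c + n + 1) → k) :=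
  {x | x ≠ 0 ∧ ∀ j, x (Fin.castAdd (n + 1) j) ^ d j =
    ∏ i, ∑ l : Fin (n + 1), x (Fin.natAdd c l) * a j i ^ (l : ℕ)}

/-- the equations -/
noncomputable def eqF (n : ℕ) {c : ℕ} {d : Fin c → ℕ} (a : (j : Fin c) → Fin (d j) → k)
    (j : Fin c) : MvPolynomial (Fin (c + n + 1)) k :=
  MvPolynomial.X (Fin.castAdd (n + 1) j) ^ d j -
    ∏ i, ∑ l : Fin (n + 1), MvPolynomial.X (Fin.natAdd c l) * MvPolynomial.C (a j i ^ (l : ℕ))

theorem val_eqF (a : (j : Fin c) → Fin (d j) → k) (j : Fin c) (y : Fin (c + n + 1) → K) :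
    val y (eqF n a j) = wp y j ^ d j - ∏ i, (pol (hp y)).eval (algebraMap k K (a j i)) := by
  unfold val eqF wp hp
  rw [map_sub, map_pow, MvPolynomial.aeval_X, map_prod]
  congr 1
  refine Finset.prod_congr rfl fun i _ => ?_
  rw [map_sum]
  unfold pol
  rw [eval_finsetSum]
  refine Finset.sum_congr rfl fun l _ => ?_
  rw [map_mul, MvPolynomial.aeval_X, MvPolynomial.aeval_C, eval_mul, eval_C, eval_pow, eval_X,
    map_pow]

theorem cone_eqF (a : (j : Fin c) → Fin (d j) → k) : Cone (eqF n a) = CompInt n a := by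
  ext x
  unfold Cone CompInt
  simp only [Set.mem_ofPred_eq]
  refine and_congr_right fun _ => forall_congr' fun j => ?_
  rw [val_eqF, sub_eq_zero]
  unfold wp hp pol
  simp only [Algebra.algebraMap_self, RingHom.id_apply, eval_finsetSum, eval_mul, eval_C, eval_pow,
    eval_X]

theorem isForm_eqF (a : (j : Fin c) → Fin (d j) → k) (j : Fin c) : IsForm (eqF n a j) := by
  refine ⟨d j, ?_⟩
  unfold eqF
  refine MvPolynomial.IsHomogeneous.sub ?_ ?_
  · have := (MvPolynomial.isHomogeneous_X k (Fin.castAdd (n + 1) j : Fin (c + n + 1))).pow (d j)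
    simpa using this
  · have h1 : (∏ i : Fin (d j), ∑ l : Fin (n + 1), (MvPolynomial.X (Fin.natAdd c l) :
        MvPolynomial (Fin (c + n + 1)) k) * MvPolynomial.C (a j i ^ (l : ℕ))).IsHomogeneous
        (∑ _i : Fin (d j), 1) := by
      refine MvPolynomial.IsHomogeneous.prod _ _ _ fun i _ =>
        MvPolynomial.IsHomogeneous.sum _ _ _ fun l _ => ?_
      have := (MvPolynomial.isHomogeneous_X k (Fin.natAdd c l : Fin (c + n + 1))).mul
        (MvPolynomial.isHomogeneous_C (Fin (c + n + 1)) (a j i ^ (l : ℕ)))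
      simpa using this
    simpa using h1

/-- points over extensions -/
theorem onCI_of [IsAlgClosed k] {ι : Type} {F : ι → MvPolynomial (Fin (c + n + 1)) k}
    {a : (j : Fin c) → Fin (d j) → k} (hV : Cone F ⊆ CompInt n a) {y : Fin (c + n + 1) → K}
    (hy0 : y ≠ 0) (hy : ∀ e, val y (F e) = 0) : OnCI a (fun _ => 1) (wp y) (hp y) := by
  rw [← cone_eqF] at hV
  intro j
  have h1 := mem_of_cone hV hy0 hy j
  rw [val_eqF, sub_eq_zero] at h1
  rw [h1, map_one, one_mul]

theorem hp_ne (hd : ∀ j, 0 < d j) {a : (j : Fin c) → Fin (d j) → k} {κ : Fin c → k}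
    {y : Fin (c + n + 1) → K} (hy0 : y ≠ 0) (ho : OnCI a κ (wp y) (hp y)) : hp y ≠ 0 := by
  intro h0
  apply hy0
  have h5 : pol (0 : Fin (n + 1) → K) = 0 := by
    unfold pol
    simp
  funext i
  refine Fin.addCases (m := c) (n := n + 1) (fun j => ?_) (fun l => congrFun h0 l) i
  have h6 := ho j
  rw [h0, h5] at h6
  simp only [eval_zero] at h6
  rw [Finset.prod_const, Finset.card_univ, Fintype.card_fin, zero_pow (hd j).ne', mul_zero] at h6
  exact eq_zero_of_pow_eq_zero h6

/-- the coordinates are algebraic over the coordinates of the polynomial -/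
theorem ratio_alg (hd : ∀ j, 0 < d j) {a : (j : Fin c) → Fin (d j) → k} {κ : Fin c → k}
    {y : Fin (c + n + 1) → K} (ho : OnCI a κ (wp y) (hp y)) {p : Fin (n + 1)}
    (hp' : hp y p ≠ 0) : ∀ i, IsAlgebraic (coords k (hp y)) (y i / hp y p) := by
  set M := coords k (hp y) with hM
  have hm : ∀ l, hp y l / hp y p ∈ M := fun l =>
    IntermediateField.subset_adjoin k _ ⟨l, p, hp', rfl⟩
  intro i
  refine Fin.addCases (m := c) (n := n + 1) (fun j => ?_) (fun l => ?_) i
  · have h2 : IsAlgebraic M ((y (Fin.castAdd (n + 1) j) / hp y p) ^ d j) := by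
      have h3 : (y (Fin.castAdd (n + 1) j) / hp y p) ^ d j = algebraMap k K (κ j) *
          ∏ i, (∑ l, hp y l / hp y p * algebraMap k K (a j i) ^ (l : ℕ)) := by
        have h4 := ho j
        have h5 : ∀ i, (pol (hp y)).eval (algebraMap k K (a j i)) =
            hp y p * ∑ l, hp y l / hp y p * algebraMap k K (a j i) ^ (l : ℕ) := by
          intro i
          unfold pol
          rw [eval_finsetSum, Finset.mul_sum]
          refine Finset.sum_congr rfl fun l _ => ?_
          rw [eval_mul, eval_C, eval_pow, eval_X]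
          field_simp
        have h6 : y (Fin.castAdd (n + 1) j) ^ d j = algebraMap k K (κ j) *
            (hp y p ^ d j * ∏ i, ∑ l, hp y l / hp y p * algebraMap k K (a j i) ^ (l : ℕ)) := by
          have h7 : wp y j ^ d j = _ := h4
          rw [Finset.prod_congr rfl fun i _ => h5 i, Finset.prod_mul_distrib, Finset.prod_const,
            Finset.card_univ, Fintype.card_fin] at h7
          exact h7
        rw [div_pow, h6]
        have h8 : hp y p ^ d j ≠ 0 := pow_ne_zero _ hp'
        field_simp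
      rw [h3]
      have h5 : algebraMap k K (κ j) *
          (∏ i, (∑ l, hp y l / hp y p * algebraMap k K (a j i) ^ (l : ℕ))) ∈ M :=
        M.mul_mem (M.algebraMap_mem _) (M.prod_mem fun i _ => M.sum_mem fun l _ =>
          M.mul_mem (hm l) (pow_mem (M.algebraMap_mem _) _))
      exact isAlgebraic_algebraMap (R := M) (A := K) ⟨_, h5⟩
    exact h2.of_pow (hd j)
  · exact isAlgebraic_algebraMap (R := M) (A := K) ⟨_, hm l⟩

/-- the coordinates `w` are algebraic over the coordinates of the polynomial -/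
theorem alg_hp (hd : ∀ j, 0 < d j) {a : (j : Fin c) → Fin (d j) → k} {κ : Fin c → k}
    {y : Fin (c + n + 1) → K} (hy0 : y ≠ 0) (ho : OnCI a κ (wp y) (hp y))
    (hgen : coords k y = ⊤) : Algebra.IsAlgebraic (coords k (hp y)) K := by
  obtain ⟨p, hp0⟩ := Function.ne_iff.1 (hp_ne hd hy0 ho)
  have hp' : hp y p ≠ 0 := hp0
  set M := coords k (hp y) with hM
  have h1 := ratio_alg hd ho hp'
  constructor
  intro f
  have hle : coords k y ≤ (algebraicClosure M K).restrictScalars k := by
    unfold coords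
    rw [IntermediateField.adjoin_le_iff]
    rintro f ⟨i, j, hj, rfl⟩
    have h2 : y i / y j = y i / hp y p * (y j / hp y p)⁻¹ := by field_simp
    have h3 : IsAlgebraic M (y i / y j) := by
      rw [h2]
      exact (h1 i).mul (h1 j).inv
    exact mem_algebraicClosure_iff.2 h3
  rw [hgen] at hle
  have h1 : f ∈ (algebraicClosure M K).restrictScalars k := hle IntermediateField.mem_top
  exact mem_algebraicClosure_iff.1 h1

/-- **General type**: the subvarieties which are not contained in `w = 0`. -/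
theorem gt_sub [IsAlgClosed k] [CharZero k] {ι : Type} {F : ι → MvPolynomial (Fin (c + n + 1)) k}
    {a : (j : Fin c) → Fin (d j) → k} (hnum : Num n c d)
    (ha : Function.Injective fun t : Σ j, Fin (d j) => a t.1 t.2) (hV : Cone F ⊆ CompInt n a)
    {t : ℕ} {y : Fin (c + n + 1) → K} (ht : 1 ≤ t) (hy : SubVar F K t y) (hw : wp y ≠ 0) :
    GeneralType k K t := by
  have ho := onCI_of hV hy.ne hy.mem
  obtain ⟨j, hj⟩ := Function.ne_iff.1 hw
  obtain ⟨h1, N, hN, ω, h2, -, h3, h4⟩ := gt_ci c n d a (fun _ => 1) hnum ha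
    (fun _ => one_ne_zero) K (wp y) (hp y) t ho (hp_ne hnum.pos hy.ne ho) ⟨j, hj⟩ hy.dim ht
    (alg_hp hnum.pos hy.ne ho hy.gen) fun _ => False
  exact ⟨h1, N, hN, ω, h2, fun P hP j => h3 P hP (fun h => h) j, h4⟩

end Pool.Agent.Y190.CI
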